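import Mathlib

/-!
# Labelled graded orders: definitions and the passage to level functions
-/

set_option autoImplicit false

namespace Pool.Agent.Helper55.Graded

open Finset Relation

section Defs

variable {V : Type} (r : V → V → Prop)

/-- The strict order. -/
def Lt (p q : V) : Prop := r p q ∧ p ≠ q

/-- `q` covers `p`. -/
def Covers (p q : V) : Prop := Lt r p q ∧ ¬ ∃ s, Lt r p s ∧ Lt r s q

/-- The comparability graph. -/
def Comparability : SimpleGraph V where
  Adj p q := p ≠ q ∧ (r p q ∨ r q p)
  symm := ⟨fun _ _ h => ⟨h.1.symm, h.2.symm⟩⟩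
  loopless := ⟨fun _ h => h.1 rfl⟩

/-- `g` is the normalised grading of the order `r`: it is order-preserving and positive, it increases
by one along covers, and every component contains an element with `g = 1`. -/
def IsGrading (g : V → ℕ) : Prop :=
  (∀ p q, r p q → g p ≤ g q) ∧ (∀ p q, Covers r p q → g q = g p + 1) ∧ (∀ p, 1 ≤ g p) ∧
    ∀ p, ∃ b, (Comparability r).Reachable p b ∧ g b = 1

/-- `r` is a partial order which is graded with exactly `k` grade levels. -/
def GradedWith (k : ℕ) : Prop :=
  IsPartialOrder V r ∧ ∃ g : V → ℕ, IsGrading r g ∧ (Set.range g).ncard = k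

end Defs

/-- The number of partial orders on an `n`-element set which are graded with exactly `k` levels. -/
noncomputable def a (k n : ℕ) : ℕ := Nat.card {r : Fin n → Fin n → Prop // GradedWith r k}

/-! ### A finite order is determined by its covers -/

section Upper

variable {V : Type} [Finite V] {r : V → V → Prop}

lemma rtg_covers (hr : IsPartialOrder V r) {p q : V} (h : r p q) :
    ReflTransGen (Covers r) p q := by
  classical
  have := Fintype.ofFinite V
  let inst : PartialOrder V :=
    { le := r
      lt := fun a b => r a b ∧ ¬ r b a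
      le_refl := hr.refl
      le_trans := hr.trans
      le_antisymm := hr.antisymm
      lt_iff_le_not_ge := fun _ _ => Iff.rfl }
  letI : LocallyFiniteOrder V := Fintype.toLocallyFiniteOrder
  have h1 : p ≤ q := h
  rw [le_iff_reflTransGen_covBy] at h1
  refine h1.lift id ?_
  intro x y hxy
  simp only [Function.onFun, id]
  have key : ∀ u v : V, u < v ↔ Lt r u v := by
    intro u v
    constructor
    · intro huv
      exact ⟨huv.le, huv.ne⟩
    · rintro ⟨h2, h3⟩
      exact lt_of_le_of_ne h2 h3
  refine ⟨(key x y).mp hxy.lt, ?_⟩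
  rintro ⟨s, h2, h3⟩
  exact hxy.2 ((key x s).mpr h2) ((key s y).mpr h3)

lemma eq_of_covers {r' : V → V → Prop} (hr : IsPartialOrder V r) (hr' : IsPartialOrder V r')
    (h : ∀ p q, Covers r p q ↔ Covers r' p q) : r = r' := by
  have key : ∀ (s : V → V → Prop) (hs : IsPartialOrder V s) (p q : V),
      s p q ↔ ReflTransGen (Covers s) p q := by
    intro s hs p q
    refine ⟨rtg_covers hs, fun h => ?_⟩
    induction h with
    | refl => exact hs.refl _
    | tail _ h ih => exact hs.trans _ _ _ ih h.1.1
  funext p q
  rw [eq_iff_iff, key r hr, key r' hr']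
  have : Covers r = Covers r' := by
    funext p q
    exact propext (h p q)
  rw [this]

/-- Along a comparability all intermediate grades occur. -/
lemma between_le {g : V → ℕ} (hr : IsPartialOrder V r) (hg : IsGrading r g) {p q : V}
    (h : r p q) (v : ℕ) (h1 : g p ≤ v) (h2 : v ≤ g q) : ∃ s, g s = v := by
  have h3 := rtg_covers hr h
  clear h
  induction h3 with
  | refl => exact ⟨p, by omega⟩
  | @tail b c _ hbc ih =>
    have h4 := hg.2.1 b c hbc
    by_cases h5 : v ≤ g b
    · exact ih h5
    · exact ⟨c, by omega⟩

lemma between_reach {g : V → ℕ} (hr : IsPartialOrder V r) (hg : IsGrading r g) {p q : V}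
    (h : (Comparability r).Reachable p q) (v : ℕ) (h1 : g q ≤ v) (h2 : v ≤ g p) :
    ∃ s, g s = v := by
  obtain ⟨w⟩ := h
  induction w with
  | @nil u => exact ⟨u, by omega⟩
  | @cons u v' w' hadj _ ih =>
    by_cases h5 : v ≤ g v'
    · exact ih h1 h5
    · rcases hadj.2 with h6 | h6
      · have := hg.1 _ _ h6
        omega
      · exact between_le hr hg h6 v (by omega) h2

lemma range_eq {g : V → ℕ} (hr : IsPartialOrder V r) (hg : IsGrading r g) {k : ℕ}
    (hk : (Set.range g).ncard = k) : Set.range g = Set.Icc 1 k := by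
  have hfin : (Set.range g).Finite := Set.finite_range g
  -- downward closed
  have hdown : ∀ v ∈ Set.range g, ∀ u, 1 ≤ u → u ≤ v → u ∈ Set.range g := by
    rintro v ⟨p, rfl⟩ u hu huv
    obtain ⟨b, hb, hb1⟩ := hg.2.2.2 p
    obtain ⟨s, hs⟩ := between_reach hr hg hb u (by omega) huv
    exact ⟨s, hs⟩
  have hpos : ∀ v ∈ Set.range g, 1 ≤ v := by
    rintro v ⟨p, rfl⟩
    exact hg.2.2.1 p
  by_cases hne : (Set.range g).Nonempty
  · obtain ⟨m, hm, hmax⟩ := Set.exists_max_image (Set.range g) id hfin hne
    have h1 : Set.range g = Set.Icc 1 m := by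
      ext v
      constructor
      · intro hv
        exact ⟨hpos v hv, hmax v hv⟩
      · rintro ⟨h1, h2⟩
        exact hdown m hm v h1 h2
    have h2 : (Set.Icc 1 m).ncard = m := by
      rw [Set.ncard_eq_toFinset_card']
      simp
    rw [h1, h2] at hk
    rw [h1, hk]
  · rw [Set.not_nonempty_iff_eq_empty] at hne
    rw [hne] at hk ⊢
    rw [Set.ncard_empty] at hk
    subst hk
    ext v
    simp

end Upper

/-! ### Level functions -/

/-- The pairs of consecutive levels of a level function. -/
def pairs {n k : ℕ} (g : Fin n → Fin k) : Finset (Fin n × Fin n) :=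
  univ.filter (fun z => (g z.2 : ℕ) = g z.1 + 1)

/-- The surjective level functions. -/
def surj (n k : ℕ) : Finset (Fin n → Fin k) := by
  classical exact univ.filter (fun g => Function.Surjective g)

/-- The number of graded orders is at most the sum of `2 ^ |pairs g|` over all surjective level
functions `g`. -/
theorem a_le (k n : ℕ) : a k n ≤ ∑ g ∈ surj n k, 2 ^ (pairs g).card := by
  classical
  let S : Finset ((_ : Fin n → Fin k) × Finset (Fin n × Fin n)) :=
    (surj n k).sigma (fun g => (pairs g).powerset)
  have hS : S.card = ∑ g ∈ surj n k, 2 ^ (pairs g).card := by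
    rw [card_sigma]
    exact sum_congr rfl (fun g _ => card_powerset _)
  rw [← hS]
  -- the map
  have hex : ∀ r : {r : Fin n → Fin n → Prop // GradedWith r k},
      ∃ g : Fin n → Fin k, Function.Surjective g ∧
        ∀ p q, Covers r.1 p q → (g q : ℕ) = g p + 1 := by
    rintro ⟨r, hr, g, hg, hk⟩
    have h1 := range_eq hr hg hk
    have h2 : ∀ x, 1 ≤ g x ∧ g x ≤ k := by
      intro x
      have : g x ∈ Set.Icc 1 k := by
        rw [← h1]
        exact ⟨x, rfl⟩
      exact this
    refine ⟨fun x => ⟨g x - 1, by have := h2 x; omega⟩, ?_, ?_⟩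
    · intro i
      have : (i : ℕ) + 1 ∈ Set.range g := by
        rw [h1]
        exact ⟨by omega, i.2⟩
      obtain ⟨x, hx⟩ := this
      refine ⟨x, ?_⟩
      apply Fin.ext
      simp only
      omega
    · intro p q hpq
      have h3 := hg.2.1 p q hpq
      have h4 := h2 p
      have h5 := h2 q
      simp only
      omega
  choose G hG1 hG2 using hex
  let F : {r : Fin n → Fin n → Prop // GradedWith r k} → S := fun r =>
    ⟨⟨G r, univ.filter (fun z => Covers r.1 z.1 z.2)⟩, by
      rw [mem_sigma]
      refine ⟨?_, ?_⟩
      · rw [surj, mem_filter]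
        exact ⟨mem_univ _, hG1 r⟩
      · rw [mem_powerset]
        intro z hz
        rw [mem_filter] at hz
        rw [pairs, mem_filter]
        exact ⟨mem_univ _, hG2 r _ _ hz.2⟩⟩
  have hF : Function.Injective F := by
    intro r r' h
    have h1 : (F r).1.2 = (F r').1.2 := by rw [h]
    apply Subtype.ext
    apply eq_of_covers r.2.1 r'.2.1
    intro p q
    have h2 : ((p, q) ∈ (F r).1.2) ↔ ((p, q) ∈ (F r').1.2) := by rw [h1]
    simpa [F] using h2
  have h2 := Nat.card_le_card_of_injective F hF
  rwa [Nat.card_eq_fintype_card (α := S), Fintype.card_coe] at h2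

end Pool.Agent.Helper55.Graded
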