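import Pool.Agent.Helper55.GradedDefs

/-!
# Many graded orders with a given number of levels

The levels are `1, 2, …, K + 3`; the levels `1` and `5, …, K + 3` have one element each, the other
elements are in the levels `2, 3, 4`.
-/

set_option autoImplicit false

namespace Pool.Agent.Helper55.Graded

open Finset Relation

/-! ### The order generated by edges between consecutive levels -/

section Generated

variable {V : Type} {E : V → V → Prop} {g : V → ℕ}

lemma rtg_le (hE : ∀ a b, E a b → g b = g a + 1) {a b : V} (h : ReflTransGen E a b) :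
    g a ≤ g b := by
  induction h with
  | refl => exact le_rfl
  | tail _ h ih => have := hE _ _ h; omega

lemma rtg_lt (hE : ∀ a b, E a b → g b = g a + 1) {a b : V} (h : ReflTransGen E a b)
    (hab : a ≠ b) : g a < g b := by
  rcases h.cases_head with h | ⟨c, h1, h2⟩
  · exact absurd h hab
  · have := hE _ _ h1
    have := rtg_le hE h2
    omega

lemma rtg_po (hE : ∀ a b, E a b → g b = g a + 1) : IsPartialOrder V (ReflTransGen E) where
  refl := fun _ => ReflTransGen.refl
  trans := fun _ _ _ => ReflTransGen.trans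
  antisymm := fun a b h1 h2 => by
    by_contra hab
    have := rtg_lt hE h1 hab
    have := rtg_le hE h2
    omega

lemma covers_iff (hE : ∀ a b, E a b → g b = g a + 1) (a b : V) :
    Covers (ReflTransGen E) a b ↔ E a b := by
  constructor
  · rintro ⟨⟨h1, h2⟩, h3⟩
    rcases h1.cases_head with h | ⟨c, h4, h5⟩
    · exact absurd h h2
    · by_cases hcb : c = b
      · rw [← hcb]
        exact h4
      · exfalso
        apply h3
        refine ⟨c, ⟨ReflTransGen.single h4, ?_⟩, ⟨h5, hcb⟩⟩
        rintro rfl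
        have := hE _ _ h4
        omega
  · intro h
    have h1 := hE _ _ h
    refine ⟨⟨ReflTransGen.single h, ?_⟩, ?_⟩
    · rintro rfl
      omega
    · rintro ⟨s, ⟨h2, h3⟩, ⟨h4, h5⟩⟩
      have := rtg_lt hE h2 h3
      have := rtg_lt hE h4 h5
      omega

lemma isGrading (hE : ∀ a b, E a b → g b = g a + 1) (hpos : ∀ p, 1 ≤ g p) (v : V) (hv : g v = 1)
    (hconn : ∀ p, ReflTransGen (fun a b => E a b ∨ E b a) v p) :
    IsGrading (ReflTransGen E) g := by
  refine ⟨fun p q h => rtg_le hE h, fun p q h => hE p q ((covers_iff hE p q).mp h), hpos,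
    fun p => ⟨v, ?_, hv⟩⟩
  have h := hconn p
  induction h with
  | refl => exact SimpleGraph.Reachable.refl _
  | @tail b c _ h ih =>
    refine SimpleGraph.Reachable.trans ?_ ih
    apply SimpleGraph.Adj.reachable
    rcases h with h | h
    · refine ⟨?_, Or.inr (ReflTransGen.single h)⟩
      rintro rfl
      have := hE _ _ h
      omega
    · refine ⟨?_, Or.inl (ReflTransGen.single h)⟩
      rintro rfl
      have := hE _ _ h
      omega

end Generated

/-! ### The family of orders -/

section Family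

variable {N K : ℕ}

/-- The data of an element outside of the third level: whether it is in the fourth level, whether
it is adjacent to the special element next to its level, and its neighbours in the third level. -/
abbrev Dt (N : ℕ) : Type := (Bool × Bool) × Finset (Fin N)

/-- The level of an element; the elements of `A` have level three. -/
def lev (A : Finset (Fin N)) (f : Fin N → Dt N) : Fin N ⊕ Fin K → ℕ
  | .inl x => if x ∈ A then 3 else if (f x).1.1 = true then 4 else 2
  | .inr i => if (i : ℕ) = 0 then 1 else i + 4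

/-- The edges between consecutive levels. -/
def Edge (A : Finset (Fin N)) (f : Fin N → Dt N) : Fin N ⊕ Fin K → Fin N ⊕ Fin K → Prop
  | .inr i, .inl x => (i : ℕ) = 0 ∧ x ∉ A ∧ (f x).1 = (false, true)
  | .inl x, .inl y => (x ∉ A ∧ y ∈ A ∧ (f x).1.1 = false ∧ y ∈ (f x).2) ∨
      (x ∈ A ∧ y ∉ A ∧ (f y).1.1 = true ∧ x ∈ (f y).2)
  | .inl x, .inr i => (i : ℕ) = 1 ∧ x ∉ A ∧ (f x).1 = (true, true)
  | .inr i, .inr j => 1 ≤ (i : ℕ) ∧ (j : ℕ) = i + 1

lemma edge_lev (A : Finset (Fin N)) (f : Fin N → Dt N) :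
    ∀ p q : Fin N ⊕ Fin K, Edge A f p q → lev A f q = lev A f p + 1 := by
  rintro (x | i) (y | j) h
  · rcases h with ⟨h1, h2, h3, -⟩ | ⟨h1, h2, h3, -⟩
    · simp [lev, h1, h2, h3]
    · simp [lev, h1, h2, h3]
  · obtain ⟨h1, h2, h3⟩ := h
    simp [lev, h1, h2, h3]
  · obtain ⟨h1, h2, h3⟩ := h
    simp [lev, h1, h2, h3]
  · obtain ⟨h1, h2⟩ := h
    simp only [lev]
    rw [if_neg (by omega), if_neg (by omega)]
    omega

lemma lev_pos (A : Finset (Fin N)) (f : Fin N → Dt N) (p : Fin N ⊕ Fin K) :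
    1 ≤ lev A f p := by
  rcases p with x | i
  · simp only [lev]
    split_ifs <;> omega
  · simp only [lev]
    split_ifs <;> omega

/-- The canonical data for a given set `A`. -/
def Data (A : Finset (Fin N)) : Finset (Fin N → Dt N) :=
  Fintype.piFinset (fun x => if x ∈ A then {((false, false), ∅)} else univ ×ˢ A.powerset)

/-- The conditions which ensure that the order is connected and has all levels. -/
def Good (A : Finset (Fin N)) (f : Fin N → Dt N) : Prop :=
  (∀ y ∈ A, ∀ z ∈ A, ∃ x, x ∉ A ∧ y ∈ (f x).2 ∧ z ∈ (f x).2) ∧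
  (∀ x, x ∉ A → (f x).2 ≠ ∅) ∧ (∃ x, x ∉ A ∧ (f x).1 = (false, true)) ∧
    (∃ x, x ∉ A ∧ (f x).1 = (true, true))

lemma mem_Data {A : Finset (Fin N)} {f : Fin N → Dt N} (h : f ∈ Data A) :
    (∀ x ∈ A, f x = ((false, false), ∅)) ∧ (∀ x, x ∉ A → (f x).2 ⊆ A) := by
  rw [Data, Fintype.mem_piFinset] at h
  constructor
  · intro x hx
    have := h x
    rw [if_pos hx, mem_singleton] at this
    exact this
  · intro x hx
    have := h x
    rw [if_neg hx, mem_product, mem_powerset] at this
    exact this.2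

/-- adjacency along edges -/
lemma adj_of_mem {A : Finset (Fin N)} {f : Fin N → Dt N} {x y : Fin N}
    (hx : x ∉ A) (hy : y ∈ A) (h : y ∈ (f x).2) :
    Edge (K := K) A f (.inl x) (.inl y) ∨ Edge (K := K) A f (.inl y) (.inl x) := by
  by_cases h2 : (f x).1.1 = true
  · exact Or.inr (Or.inr ⟨hy, hx, h2, h⟩)
  · exact Or.inl (Or.inl ⟨hx, hy, by simpa using h2, h⟩)

lemma connected {A : Finset (Fin N)} {f : Fin N → Dt N} (hf : f ∈ Data A)
    (hg : Good A f) (hK : 2 ≤ K) : ∀ p : Fin N ⊕ Fin K,
      ReflTransGen (fun a b => Edge A f a b ∨ Edge A f b a) (.inr ⟨0, by omega⟩) p := by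
  obtain ⟨hd1, hd2⟩ := mem_Data hf
  obtain ⟨h1, h2, ⟨x0, hx0, hx0'⟩, ⟨x2, hx2, hx2'⟩⟩ := hg
  set v : Fin N ⊕ Fin K := .inr ⟨0, by omega⟩ with hv
  have hA : ∃ y0, y0 ∈ A ∧ y0 ∈ (f x0).2 := by
    obtain ⟨y, hy⟩ := Finset.nonempty_iff_ne_empty.mpr (h2 x0 hx0)
    exact ⟨y, hd2 x0 hx0 hy, hy⟩
  obtain ⟨y0, hy0, hy0'⟩ := hA
  have hx0r : ReflTransGen (fun a b => Edge A f a b ∨ Edge A f b a) v (.inl x0) :=
    ReflTransGen.single (Or.inl ⟨rfl, hx0, hx0'⟩)
  have hy0r : ReflTransGen (fun a b => Edge A f a b ∨ Edge A f b a) v (.inl y0) :=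
    hx0r.tail (adj_of_mem hx0 hy0 hy0')
  have hA' : ∀ z ∈ A, ReflTransGen (fun a b => Edge A f a b ∨ Edge A f b a) v (.inl z) := by
    intro z hz
    obtain ⟨x, hx, hxy, hxz⟩ := h1 y0 hy0 z hz
    exact (hy0r.tail (adj_of_mem hx hy0 hxy).symm).tail (adj_of_mem hx hz hxz)
  have hall : ∀ x : Fin N, ReflTransGen (fun a b => Edge A f a b ∨ Edge A f b a) v (.inl x) := by
    intro x
    by_cases hx : x ∈ A
    · exact hA' x hx
    · obtain ⟨y, hy⟩ := Finset.nonempty_iff_ne_empty.mpr (h2 x hx)
      exact (hA' y (hd2 x hx hy)).tail (adj_of_mem hx (hd2 x hx hy) hy).symm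
  rintro (x | i)
  · exact hall x
  · have key : ∀ m : ℕ, ∀ hm : m < K,
        ReflTransGen (fun a b => Edge A f a b ∨ Edge A f b a) v (.inr ⟨m, hm⟩) := by
      intro m
      induction m with
      | zero => intro _; exact ReflTransGen.refl
      | succ m ih =>
        intro hm
        by_cases h0 : m = 0
        · subst h0
          exact (hall x2).tail (Or.inl ⟨rfl, hx2, hx2'⟩)
        · refine (ih (by omega)).tail (Or.inl ?_)
          show 1 ≤ m ∧ m + 1 = m + 1
          omega
    exact key i i.2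

lemma range_lev {A : Finset (Fin N)} {f : Fin N → Dt N} (hf : f ∈ Data A)
    (hg : Good A f) (hK : 2 ≤ K) :
    Set.range (lev (K := K) A f) = Set.Icc 1 (K + 3) := by
  obtain ⟨hd1, hd2⟩ := mem_Data hf
  obtain ⟨h1, h2, ⟨x0, hx0, hx0'⟩, ⟨x2, hx2, hx2'⟩⟩ := hg
  obtain ⟨y, hy⟩ := Finset.nonempty_iff_ne_empty.mpr (h2 x0 hx0)
  ext i
  constructor
  · rintro ⟨p, rfl⟩
    rw [Set.mem_Icc]
    rcases p with x | i
    · simp only [lev]
      split_ifs <;> omega
    · simp only [lev]
      have := i.2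
      split_ifs <;> omega
  · rw [Set.mem_Icc]
    intro hi
    rcases Nat.lt_or_ge i 5 with h5 | h5
    · have h6 : i = 1 ∨ i = 2 ∨ i = 3 ∨ i = 4 := by omega
      rcases h6 with rfl | rfl | rfl | rfl
      · exact ⟨.inr ⟨0, by omega⟩, by simp [lev]⟩
      · exact ⟨.inl x0, by simp [lev, hx0, hx0']⟩
      · exact ⟨.inl y, by simp [lev, hd2 x0 hx0 hy]⟩
      · exact ⟨.inl x2, by simp [lev, hx2, hx2']⟩
    · refine ⟨.inr ⟨i - 4, by omega⟩, ?_⟩
      simp only [lev]
      rw [if_neg (by omega)]
      omega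

/-- The levels are determined by the edges. -/
lemma lev_eq {A A' : Finset (Fin N)} {f f' : Fin N → Dt N} (hf : f ∈ Data A)
    (hg : Good A f) (hK : 2 ≤ K) (hE : Edge (K := K) A f = Edge A' f') :
    ∀ p : Fin N ⊕ Fin K, lev A f p = lev A' f' p := by
  intro p
  have h := connected hf hg hK p
  induction h with
  | refl => simp [lev]
  | @tail b c _ h ih =>
    rcases h with h | h
    · have h1 := edge_lev A f _ _ h
      rw [hE] at h
      have h2 := edge_lev A' f' _ _ h
      omega
    · have h1 := edge_lev A f _ _ h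
      rw [hE] at h
      have h2 := edge_lev A' f' _ _ h
      omega

lemma data_eq {A A' : Finset (Fin N)} {f f' : Fin N → Dt N} (hf : f ∈ Data A)
    (hg : Good A f) (hf' : f' ∈ Data A') (hK : 2 ≤ K) (hE : Edge (K := K) A f = Edge A' f') :
    A = A' ∧ f = f' := by
  have hlev := lev_eq hf hg hK hE
  obtain ⟨hd1, hd2⟩ := mem_Data hf
  obtain ⟨hd1', hd2'⟩ := mem_Data hf'
  have hmem : ∀ (B : Finset (Fin N)) (h : Fin N → Dt N) (x : Fin N),
      x ∈ B ↔ lev (K := K) B h (.inl x) = 3 := by
    intro B h x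
    simp only [lev]
    split_ifs with h1 h2 <;> simp [h1]
  have hA : A = A' := by
    ext x
    rw [hmem A f, hmem A' f', hlev]
  subst hA
  refine ⟨rfl, ?_⟩
  have htwo : ∀ (h : Fin N → Dt N) (x : Fin N), x ∉ A →
      ((h x).1.1 = true ↔ lev (K := K) A h (.inl x) = 4) := by
    intro h x hx
    simp only [lev, if_neg hx]
    split_ifs with h2 <;> simp [h2]
  funext x
  by_cases hx : x ∈ A
  · rw [hd1 x hx, hd1' x hx]
  · have h2 : (f x).1.1 = true ↔ (f' x).1.1 = true := by
      rw [htwo f x hx, htwo f' x hx, hlev]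
    have h0 : (f x).1 = (false, true) ↔ (f' x).1 = (false, true) := by
      have h3 : Edge (K := K) A f (.inr ⟨0, by omega⟩) (.inl x) ↔
          Edge (K := K) A f' (.inr ⟨0, by omega⟩) (.inl x) := by rw [hE]
      simpa only [Edge, hx, not_false_eq_true, true_and] using h3
    have h0' : (f x).1 = (true, true) ↔ (f' x).1 = (true, true) := by
      have h3 : Edge (K := K) A f (.inl x) (.inr ⟨1, by omega⟩) ↔
          Edge (K := K) A f' (.inl x) (.inr ⟨1, by omega⟩) := by rw [hE]
      simpa only [Edge, hx, not_false_eq_true, true_and] using h3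
    have h1 : (f x).1 = (f' x).1 := by
      generalize (f x).1 = i at h0 h0' h2
      generalize (f' x).1 = j at h0 h0' h2
      revert i j
      decide
    refine Prod.ext h1 ?_
    ext y
    by_cases hy : y ∈ A
    · by_cases h4 : (f x).1.1 = true
      · have h3 : Edge (K := K) A f (.inl y) (.inl x) ↔ Edge (K := K) A f' (.inl y) (.inl x) := by
          rw [hE]
        simpa only [Edge, hx, hy, not_false_eq_true, true_and, not_true_eq_false, false_and,
          false_or, h4, h2.mp h4] using h3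
      · have h3 : Edge (K := K) A f (.inl x) (.inl y) ↔ Edge (K := K) A f' (.inl x) (.inl y) := by
          rw [hE]
        have h4' : (f x).1.1 = false := by simpa using h4
        have h5 : (f' x).1.1 = false := by
          rw [← h1]
          exact h4'
        simpa only [Edge, hx, hy, not_false_eq_true, true_and, not_true_eq_false, false_and,
          or_false, h4', h5] using h3
    · constructor
      · intro h
        exact absurd (hd2 x hx h) hy
      · intro h
        exact absurd (hd2' x hx h) hy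

/-- The order on `Fin (N + K)` given by the data. -/
def ord (K : ℕ) (c : (_ : Finset (Fin N)) × (Fin N → Dt N)) :
    Fin (N + K) → Fin (N + K) → Prop :=
  ReflTransGen (fun p q => Edge c.1 c.2 (finSumFinEquiv.symm p) (finSumFinEquiv.symm q))

lemma edge_lev' (A : Finset (Fin N)) (f : Fin N → Dt N) :
    ∀ p q : Fin (N + K), Edge A f (finSumFinEquiv.symm p) (finSumFinEquiv.symm q) →
      lev A f (finSumFinEquiv.symm q) = lev A f (finSumFinEquiv.symm p) + 1 :=
  fun _ _ h => edge_lev A f _ _ h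

lemma ord_graded (c : (_ : Finset (Fin N)) × (Fin N → Dt N))
    (hf : c.2 ∈ Data c.1) (hg : Good c.1 c.2) (hK : 2 ≤ K) : GradedWith (ord K c) (K + 3) := by
  refine ⟨rtg_po (g := fun p => lev c.1 c.2 (finSumFinEquiv.symm p)) (edge_lev' c.1 c.2),
    fun p => lev c.1 c.2 (finSumFinEquiv.symm p), ?_, ?_⟩
  · apply isGrading (edge_lev' c.1 c.2) (fun p => lev_pos _ _ _)
      (finSumFinEquiv (.inr ⟨0, by omega⟩))
    · rw [Equiv.symm_apply_apply]
      simp [lev]
    · intro p
      have h := connected hf hg hK (finSumFinEquiv.symm p)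
      have h2 : ReflTransGen (fun a b =>
          Edge c.1 c.2 (finSumFinEquiv.symm a) (finSumFinEquiv.symm b) ∨
          Edge c.1 c.2 (finSumFinEquiv.symm b) (finSumFinEquiv.symm a))
          (finSumFinEquiv (.inr ⟨0, by omega⟩))
          (finSumFinEquiv (finSumFinEquiv.symm p)) := by
        refine h.lift finSumFinEquiv ?_
        intro a b hab
        simpa only [Function.onFun, Equiv.symm_apply_apply] using hab
      rwa [Equiv.apply_symm_apply] at h2
  · have h1 : Set.range (fun p : Fin (N + K) => lev c.1 c.2 (finSumFinEquiv.symm p)) =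
        Set.range (lev (K := K) c.1 c.2) := by
      exact (finSumFinEquiv (m := N) (n := K)).symm.surjective.range_comp (lev c.1 c.2)
    rw [h1, range_lev hf hg hK, Set.ncard_eq_toFinset_card']
    simp

lemma ord_inj (c c' : (_ : Finset (Fin N)) × (Fin N → Dt N))
    (hf : c.2 ∈ Data c.1) (hg : Good c.1 c.2) (hf' : c'.2 ∈ Data c'.1) (hK : 2 ≤ K)
    (h : ord K c = ord K c') : c = c' := by
  have hE : Edge (K := K) c.1 c.2 = Edge c'.1 c'.2 := by
    funext p q
    rw [eq_iff_iff]
    have h1 := covers_iff (g := fun p => lev c.1 c.2 (finSumFinEquiv.symm p))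
      (edge_lev' (K := K) c.1 c.2) (finSumFinEquiv p) (finSumFinEquiv q)
    have h2 := covers_iff (g := fun p => lev c'.1 c'.2 (finSumFinEquiv.symm p))
      (edge_lev' (K := K) c'.1 c'.2) (finSumFinEquiv p) (finSumFinEquiv q)
    simp only [Equiv.symm_apply_apply] at h1 h2
    rw [← h1, ← h2]
    show Covers (ord K c) _ _ ↔ Covers (ord K c') _ _
    rw [h]
  obtain ⟨h1, h2⟩ := data_eq hf hg hf' hK hE
  obtain ⟨A, f⟩ := c
  obtain ⟨A', f'⟩ := c'
  simp only at h1 h2
  subst h1
  subst h2
  rfl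

/-! ### Counting -/

lemma card_pi (A : Finset (Fin N)) (Y : Fin N → Finset (Dt N)) :
    (Fintype.piFinset (fun x => if x ∈ A then {((false, false), ∅)} else Y x)).card =
      ∏ x ∈ Aᶜ, (Y x).card := by
  rw [Fintype.card_piFinset]
  have h1 : ∀ x, (if x ∈ A then ({((false, false), ∅)} : Finset (Dt N)) else Y x).card =
      if x ∈ A then 1 else (Y x).card := by
    intro x
    split_ifs <;> simp
  simp only [h1]
  rw [prod_ite, prod_const_one, one_mul]
  apply prod_congr _ (fun _ _ => rfl)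
  ext x
  simp

lemma card_Data (A : Finset (Fin N)) : (Data A).card = (4 * 2 ^ A.card) ^ Aᶜ.card := by
  rw [Data, card_pi, prod_const, card_product, card_powerset]
  simp

lemma four_mul_card (A : Finset (Fin N)) (y z : Fin N) (hy : y ∈ A) (hz : z ∈ A) :
    2 ^ A.card ≤ 4 * (A.powerset.filter (fun S => y ∈ S ∧ z ∈ S)).card := by
  have h1 : ((A \ {y, z}).powerset.image (fun S => S ∪ {y, z})) ⊆
      A.powerset.filter (fun S => y ∈ S ∧ z ∈ S) := by
    intro S hS
    obtain ⟨S', hS', rfl⟩ := mem_image.mp hS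
    rw [mem_powerset] at hS'
    rw [mem_filter, mem_powerset]
    refine ⟨union_subset (hS'.trans sdiff_subset) ?_, by simp, by simp⟩
    intro w hw
    rw [mem_insert, mem_singleton] at hw
    rcases hw with rfl | rfl
    · exact hy
    · exact hz
  have h2 : ((A \ {y, z}).powerset.image (fun S => S ∪ {y, z})).card = 2 ^ (A \ {y, z}).card := by
    rw [card_image_of_injOn, card_powerset]
    intro S hS S' hS' h
    simp only [coe_powerset, Set.mem_preimage, Set.mem_powerset_iff, coe_subset] at hS hS'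
    have h3 : ∀ R : Finset (Fin N), R ⊆ A \ {y, z} → (R ∪ {y, z}) \ {y, z} = R := by
      intro R hR
      ext w
      simp only [mem_sdiff, mem_union]
      constructor
      · rintro ⟨h4 | h4, h5⟩
        · exact h4
        · exact absurd h4 h5
      · intro h4
        exact ⟨Or.inl h4, (mem_sdiff.mp (hR h4)).2⟩
    rw [← h3 S hS, ← h3 S' hS']
    simp only at h
    rw [h]
  have h3 : A.card ≤ (A \ {y, z}).card + 2 := by
    have h4 := card_le_card_sdiff_add_card (s := A) (t := {y, z})
    have h5 : ({y, z} : Finset (Fin N)).card ≤ 2 := card_le_two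
    omega
  calc 2 ^ A.card ≤ 2 ^ ((A \ {y, z}).card + 2) := Nat.pow_le_pow_right (by norm_num) h3
    _ = 4 * 2 ^ (A \ {y, z}).card := by ring
    _ ≤ 4 * (A.powerset.filter (fun S => y ∈ S ∧ z ∈ S)).card := by
      rw [← h2]
      exact Nat.mul_le_mul_left 4 (card_le_card h1)

/-- The data for which `y, z` have no common neighbour. -/
def B1 (A : Finset (Fin N)) (y z : Fin N) : Finset (Fin N → Dt N) :=
  Fintype.piFinset (fun x => if x ∈ A then {((false, false), ∅)} else
    univ ×ˢ (A.powerset.filter (fun S => ¬ (y ∈ S ∧ z ∈ S))))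

/-- The data for which `x` has no neighbour in `A`. -/
def B2 (A : Finset (Fin N)) (x' : Fin N) : Finset (Fin N → Dt N) :=
  Fintype.piFinset (fun x => if x ∈ A then {((false, false), ∅)} else
    if x = x' then univ ×ˢ {∅} else univ ×ˢ A.powerset)

/-- The data without elements of type `i`. -/
def B3 (A : Finset (Fin N)) (i : Bool × Bool) : Finset (Fin N → Dt N) :=
  Fintype.piFinset (fun x => if x ∈ A then {((false, false), ∅)} else
    (univ.erase i) ×ˢ A.powerset)

lemma card_B1 (A : Finset (Fin N)) (y z : Fin N) (hy : y ∈ A) (hz : z ∈ A) :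
    ((B1 A y z).card : ℝ) ≤ (4 * 2 ^ A.card) ^ Aᶜ.card * (3 / 4) ^ Aᶜ.card := by
  rw [B1, card_pi, prod_const, card_product, ← mul_pow]
  push_cast
  apply pow_le_pow_left₀ (by positivity)
  have h1 := four_mul_card A y z hy hz
  have h2 : (A.powerset.filter (fun S => y ∈ S ∧ z ∈ S)).card +
      (A.powerset.filter (fun S => ¬ (y ∈ S ∧ z ∈ S))).card = 2 ^ A.card := by
    rw [card_filter_add_card_filter_not, card_powerset]
  have h3 : ((A.powerset.filter (fun S => y ∈ S ∧ z ∈ S)).card : ℝ) +
      (A.powerset.filter (fun S => ¬ (y ∈ S ∧ z ∈ S))).card = 2 ^ A.card := by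
    exact_mod_cast h2
  have h4 : (2 : ℝ) ^ A.card ≤ 4 * (A.powerset.filter (fun S => y ∈ S ∧ z ∈ S)).card := by
    exact_mod_cast h1
  have h5 : ((univ : Finset (Bool × Bool)).card : ℝ) = 4 := by
    rw [card_univ, Fintype.card_prod, Fintype.card_bool]
    norm_num
  rw [h5]
  linarith

lemma card_B2 (A : Finset (Fin N)) (x' : Fin N) (hx' : x' ∉ A) :
    ((B2 A x').card : ℝ) = (4 * 2 ^ A.card) ^ Aᶜ.card * (1 / 2) ^ A.card := by
  have hmem : x' ∈ Aᶜ := mem_compl.mpr hx'
  rw [B2, card_pi, ← mul_prod_erase _ _ hmem]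
  have h5 : (univ : Finset (Bool × Bool)).card = 4 := by
    rw [card_univ, Fintype.card_prod, Fintype.card_bool]
  have h1 : ∏ x ∈ Aᶜ.erase x', (if x = x' then (univ : Finset (Bool × Bool)) ×ˢ
      {(∅ : Finset (Fin N))} else univ ×ˢ A.powerset).card =
      (4 * 2 ^ A.card) ^ (Aᶜ.card - 1) := by
    rw [← card_erase_of_mem hmem, ← prod_const]
    apply prod_congr rfl
    intro x hx
    rw [if_neg (ne_of_mem_erase hx), card_product, card_powerset, h5]
  rw [h1]
  simp only [if_true, card_product, h5, card_singleton, mul_one]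
  have hpos : 1 ≤ Aᶜ.card := card_pos.mpr ⟨x', hmem⟩
  obtain ⟨c, hc⟩ : ∃ c, Aᶜ.card = c + 1 := ⟨Aᶜ.card - 1, by omega⟩
  rw [hc, Nat.add_sub_cancel]
  push_cast
  rw [pow_succ (4 * (2 : ℝ) ^ A.card) c]
  have h2 : (2 : ℝ) ^ A.card * (1 / 2) ^ A.card = 1 := by
    rw [← mul_pow]
    norm_num
  calc (4 : ℝ) * (4 * 2 ^ A.card) ^ c = (4 * 2 ^ A.card) ^ c * 4 * 1 := by ring
    _ = (4 * 2 ^ A.card) ^ c * 4 * (2 ^ A.card * (1 / 2) ^ A.card) := by rw [h2]
    _ = _ := by ring

lemma card_B3 (A : Finset (Fin N)) (i : Bool × Bool) :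
    ((B3 A i).card : ℝ) = (4 * 2 ^ A.card) ^ Aᶜ.card * (3 / 4) ^ Aᶜ.card := by
  rw [B3, card_pi, prod_const, card_product, card_powerset, card_erase_of_mem (mem_univ _),
    ← mul_pow, card_univ, Fintype.card_prod, Fintype.card_bool]
  push_cast
  congr 1
  norm_num
  ring

open Classical in
lemma bad_subset (A : Finset (Fin N)) :
    (Data A).filter (fun f => ¬ Good A f) ⊆
      ((A ×ˢ A).biUnion (fun q => B1 A q.1 q.2) ∪ Aᶜ.biUnion (fun x => B2 A x)) ∪
        (B3 A (false, true) ∪ B3 A (true, true)) := by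
  intro f hf
  rw [mem_filter, Data, Fintype.mem_piFinset] at hf
  obtain ⟨hf, hbad⟩ := hf
  have hfA : ∀ x ∈ A, f x ∈ ({((false, false), ∅)} : Finset (Dt N)) := by
    intro x hx
    have := hf x
    rwa [if_pos hx] at this
  have hfA' : ∀ x, x ∉ A → (f x).2 ∈ A.powerset := by
    intro x hx
    have := hf x
    rw [if_neg hx, mem_product] at this
    exact this.2
  unfold Good at hbad
  rw [not_and_or, not_and_or, not_and_or] at hbad
  rw [mem_union, mem_union, mem_union]
  rcases hbad with h | h | h | h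
  · push Not at h
    obtain ⟨y, hy, z, hz, h⟩ := h
    left; left
    rw [mem_biUnion]
    refine ⟨(y, z), mem_product.mpr ⟨hy, hz⟩, ?_⟩
    rw [B1, Fintype.mem_piFinset]
    intro x
    by_cases hx : x ∈ A
    · rw [if_pos hx]
      exact hfA x hx
    · rw [if_neg hx, mem_product, mem_filter]
      refine ⟨mem_univ _, hfA' x hx, ?_⟩
      rintro ⟨h1, h2⟩
      exact h x hx h1 h2
  · push Not at h
    obtain ⟨x', hx', h⟩ := h
    left; right
    rw [mem_biUnion]
    refine ⟨x', mem_compl.mpr hx', ?_⟩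
    rw [B2, Fintype.mem_piFinset]
    intro x
    by_cases hx : x ∈ A
    · rw [if_pos hx]
      exact hfA x hx
    · rw [if_neg hx]
      split_ifs with hxx
      · rw [mem_product, mem_singleton, hxx]
        exact ⟨mem_univ _, h⟩
      · rw [mem_product]
        exact ⟨mem_univ _, hfA' x hx⟩
  · push Not at h
    right; left
    rw [B3, Fintype.mem_piFinset]
    intro x
    by_cases hx : x ∈ A
    · rw [if_pos hx]
      exact hfA x hx
    · rw [if_neg hx, mem_product, mem_erase]
      exact ⟨⟨h x hx, mem_univ _⟩, hfA' x hx⟩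
  · push Not at h
    right; right
    rw [B3, Fintype.mem_piFinset]
    intro x
    by_cases hx : x ∈ A
    · rw [if_pos hx]
      exact hfA x hx
    · rw [if_neg hx, mem_product, mem_erase]
      exact ⟨⟨h x hx, mem_univ _⟩, hfA' x hx⟩

open Classical in
lemma card_good (A : Finset (Fin N)) :
    ((4 : ℝ) * 2 ^ A.card) ^ Aᶜ.card * (1 - (A.card ^ 2 * (3 / 4) ^ Aᶜ.card +
      Aᶜ.card * (1 / 2) ^ A.card + 2 * (3 / 4) ^ Aᶜ.card)) ≤
      ((Data A).filter (fun f => Good A f)).card := by
  have h1 : ((Data A).filter (fun f => Good A f)).card +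
      ((Data A).filter (fun f => ¬ Good A f)).card = (Data A).card :=
    card_filter_add_card_filter_not _
  have h2 : (((Data A).filter (fun f => ¬ Good A f)).card : ℝ) ≤
      (∑ q ∈ A ×ˢ A, ((B1 A q.1 q.2).card : ℝ) + ∑ x ∈ Aᶜ, ((B2 A x).card : ℝ)) +
        ((B3 A (false, true)).card + (B3 A (true, true)).card) := by
    have h3 : ((Data A).filter (fun f => ¬ Good A f)).card ≤
        (∑ q ∈ A ×ˢ A, (B1 A q.1 q.2).card + ∑ x ∈ Aᶜ, (B2 A x).card) +
        ((B3 A (false, true)).card + (B3 A (true, true)).card) := by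
      refine (card_le_card (bad_subset A)).trans ?_
      refine (card_union_le _ _).trans (add_le_add ?_ (card_union_le _ _))
      refine (card_union_le _ _).trans (add_le_add card_biUnion_le card_biUnion_le)
    exact_mod_cast h3
  have h3 : ∑ q ∈ A ×ˢ A, ((B1 A q.1 q.2).card : ℝ) ≤
      A.card ^ 2 * ((4 * 2 ^ A.card) ^ Aᶜ.card * (3 / 4) ^ Aᶜ.card) := by
    calc ∑ q ∈ A ×ˢ A, ((B1 A q.1 q.2).card : ℝ)
        ≤ ∑ _q ∈ A ×ˢ A, ((4 * 2 ^ A.card) ^ Aᶜ.card * (3 / 4 : ℝ) ^ Aᶜ.card) := by
          apply sum_le_sum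
          intro q hq
          rw [mem_product] at hq
          exact card_B1 A q.1 q.2 hq.1 hq.2
      _ = _ := by
          rw [sum_const, card_product, nsmul_eq_mul]
          push_cast
          ring
  have h4 : ∑ x ∈ Aᶜ, ((B2 A x).card : ℝ) =
      Aᶜ.card * ((4 * 2 ^ A.card) ^ Aᶜ.card * (1 / 2) ^ A.card) := by
    rw [sum_congr rfl (fun x hx => card_B2 A x (mem_compl.mp hx)), sum_const, nsmul_eq_mul]
  have h5 : (((Data A).filter (fun f => Good A f)).card : ℝ) +
      ((Data A).filter (fun f => ¬ Good A f)).card = (4 * 2 ^ A.card) ^ Aᶜ.card := by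
    have := card_Data A
    rw [← h1] at this
    exact_mod_cast this
  rw [card_B3, card_B3] at h2
  nlinarith [h2, h3, h4, h5]

end Family

/-- The number of graded orders with `K + 3` levels on `N + K` elements. -/
lemma count (N K m : ℕ) (hK : 2 ≤ K)
    (hε : (m : ℝ) ^ 2 * (3 / 4) ^ (N - m) + ((N - m : ℕ) : ℝ) * (1 / 2) ^ m +
      2 * (3 / 4) ^ (N - m) ≤ 1 / 2) :
    (N.choose m : ℝ) * ((4 * 2 ^ m) ^ (N - m) / 2) ≤ a (K + 3) (N + K) := by
  classical
  let S : Finset ((_ : Finset (Fin N)) × (Fin N → Dt N)) :=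
    (powersetCard m (univ : Finset (Fin N))).sigma
      (fun A => (Data A).filter (fun f => Good A f))
  have hS : ∀ c ∈ S, c.2 ∈ Data c.1 ∧ Good c.1 c.2 := by
    intro c hc
    rw [mem_sigma, mem_filter] at hc
    exact hc.2
  have h1 : S.card ≤ a (K + 3) (N + K) := by
    have hfin : Finite {r : Fin (N + K) → Fin (N + K) → Prop // GradedWith r (K + 3)} :=
      inferInstance
    let F : S → {r : Fin (N + K) → Fin (N + K) → Prop // GradedWith r (K + 3)} := fun c =>
      ⟨ord K c.1, ord_graded c.1 (hS c.1 c.2).1 (hS c.1 c.2).2 hK⟩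
    have hF : Function.Injective F := by
      intro c c' h
      apply Subtype.ext
      exact ord_inj c.1 c'.1 (hS c.1 c.2).1 (hS c.1 c.2).2 (hS c'.1 c'.2).1 hK
        (congrArg Subtype.val h)
    have h2 := Nat.card_le_card_of_injective F hF
    rwa [Nat.card_eq_fintype_card, Fintype.card_coe] at h2
  have h2 : (N.choose m : ℝ) * ((4 * 2 ^ m) ^ (N - m) / 2) ≤ S.card := by
    have h3 : (S.card : ℝ) = ∑ A ∈ powersetCard m (univ : Finset (Fin N)),
        (((Data A).filter (fun f => Good A f)).card : ℝ) := by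
      rw [card_sigma]
      push_cast
      rfl
    rw [h3]
    have h4 : ∀ A ∈ powersetCard m (univ : Finset (Fin N)), ((4 : ℝ) * 2 ^ m) ^ (N - m) / 2 ≤
        ((Data A).filter (fun f => Good A f)).card := by
      intro A hA
      rw [mem_powersetCard] at hA
      have hA2 : Aᶜ.card = N - m := by
        rw [card_compl, hA.2, Fintype.card_fin]
      have h5 := card_good A
      rw [hA2, hA.2] at h5
      refine le_trans ?_ h5
      have h6 : (0 : ℝ) ≤ (4 * 2 ^ m) ^ (N - m) := by positivity
      nlinarith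
    calc (N.choose m : ℝ) * ((4 * 2 ^ m) ^ (N - m) / 2)
        = ∑ _A ∈ powersetCard m (univ : Finset (Fin N)), ((4 : ℝ) * 2 ^ m) ^ (N - m) / 2 := by
          rw [sum_const, card_powersetCard, card_univ, Fintype.card_fin, nsmul_eq_mul]
      _ ≤ _ := sum_le_sum h4
  refine h2.trans ?_
  exact_mod_cast h1

end Pool.Agent.Helper55.Graded
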