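import Pool.Agent.Helper55.GradedUpper
import Pool.Agent.Helper55.GradedLower

/-!
# The lower bound and the asymptotic formula
-/

set_option autoImplicit false

namespace Pool.Agent.Helper55.Graded

open Finset

lemma eventually_small : ∀ᶠ m : ℕ in Filter.atTop,
    (m : ℝ) ^ 2 * (3 / 4) ^ m + ((m : ℝ) + 1) * (1 / 2) ^ m + 2 * (3 / 4) ^ m ≤ 1 / 2 := by
  have h1 : Filter.Tendsto (fun m : ℕ => (m : ℝ) ^ 2 * (3 / 4) ^ m) Filter.atTop (nhds 0) :=
    tendsto_pow_const_mul_const_pow_of_abs_lt_one 2 (by norm_num [abs_of_pos])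
  have h2 : Filter.Tendsto (fun m : ℕ => (m : ℝ) ^ 1 * (1 / 2) ^ m) Filter.atTop (nhds 0) :=
    tendsto_pow_const_mul_const_pow_of_abs_lt_one 1 (by norm_num [abs_of_pos])
  have h2' : Filter.Tendsto (fun m : ℕ => (1 / 2 : ℝ) ^ m) Filter.atTop (nhds 0) :=
    tendsto_pow_atTop_nhds_zero_of_lt_one (by norm_num) (by norm_num)
  have h3 : Filter.Tendsto (fun m : ℕ => (3 / 4 : ℝ) ^ m) Filter.atTop (nhds 0) :=
    tendsto_pow_atTop_nhds_zero_of_lt_one (by norm_num) (by norm_num)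
  have h4 := (h1.add (h2.add h2')).add (h3.const_mul 2)
  have h5 := h4.eventually_le_const (u := 1 / 2) (by norm_num)
  filter_upwards [h5] with m hm
  refine le_trans (le_of_eq ?_) hm
  ring

lemma eventually_small' : ∀ᶠ N : ℕ in Filter.atTop,
    ((N / 2 : ℕ) : ℝ) ^ 2 * (3 / 4) ^ (N - N / 2) + ((N - N / 2 : ℕ) : ℝ) * (1 / 2) ^ (N / 2) +
      2 * (3 / 4) ^ (N - N / 2) ≤ 1 / 2 := by
  obtain ⟨m0, hm0⟩ := Filter.eventually_atTop.mp eventually_small
  filter_upwards [Filter.eventually_ge_atTop (2 * m0)] with N hN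
  refine le_trans ?_ (hm0 (N / 2) (by omega))
  have h1 : (3 / 4 : ℝ) ^ (N - N / 2) ≤ (3 / 4) ^ (N / 2) :=
    pow_le_pow_of_le_one (by norm_num) (by norm_num) (by omega)
  have h2 : ((N - N / 2 : ℕ) : ℝ) ≤ ((N / 2 : ℕ) : ℝ) + 1 := by
    have : N - N / 2 ≤ N / 2 + 1 := by omega
    exact_mod_cast this
  gcongr

theorem lower (k : ℕ) (hk : 5 ≤ k) : ∀ᶠ n : ℕ in Filter.atTop, 0 < a k n ∧
    (n : ℝ) ^ 2 / 4 + (1 - ((k : ℝ) - 5) / 2) * n - (2 * k + 1) - 3 * Real.log n ≤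
      Real.logb 2 (a k n) := by
  obtain ⟨N0, hN0⟩ := Filter.eventually_atTop.mp eventually_small'
  filter_upwards [Filter.eventually_ge_atTop (N0 + k + 2)] with n hn
  obtain ⟨K, hK⟩ : ∃ K, k = K + 3 := ⟨k - 3, by omega⟩
  obtain ⟨N, hN⟩ : ∃ N, n = N + K := ⟨n - K, by omega⟩
  have h1 := count N K (N / 2) (by omega) (hN0 N (by omega))
  rw [← hK, ← hN] at h1
  -- the binomial coefficient
  have h2 : (2 : ℝ) ^ N ≤ ((N : ℝ) + 1) * (N.choose (N / 2) : ℝ) := by
    have h3 : 2 ^ N ≤ (N + 1) * N.choose (N / 2) := by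
      rw [← Nat.sum_range_choose]
      calc ∑ m ∈ range (N + 1), N.choose m ≤ ∑ _m ∈ range (N + 1), N.choose (N / 2) :=
            sum_le_sum (fun m _ => Nat.choose_le_middle m N)
        _ = (N + 1) * N.choose (N / 2) := by rw [sum_const, card_range, smul_eq_mul]
    exact_mod_cast h3
  have hN1 : (0 : ℝ) < (N : ℝ) + 1 := by positivity
  have h3 : (2 : ℝ) ^ N / ((N : ℝ) + 1) * ((4 * 2 ^ (N / 2)) ^ (N - N / 2) / 2) ≤ a k n := by
    refine le_trans ?_ h1
    apply mul_le_mul_of_nonneg_right _ (by positivity)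
    rw [div_le_iff₀ hN1]
    linarith
  have hpos : (0 : ℝ) < a k n := lt_of_lt_of_le (by positivity) h3
  refine ⟨by exact_mod_cast hpos, ?_⟩
  have h4 := Real.logb_le_logb_of_le (b := 2) (by norm_num) (by positivity) h3
  refine le_trans ?_ h4
  have h5 : (4 : ℝ) * 2 ^ (N / 2) = 2 ^ (N / 2 + 2) := by ring
  have h6 : (2 : ℝ) ^ N / ((N : ℝ) + 1) * ((4 * 2 ^ (N / 2)) ^ (N - N / 2) / 2) =
      2 ^ (N + (N / 2 + 2) * (N - N / 2)) / (((N : ℝ) + 1) * 2) := by
    rw [h5, ← pow_mul, pow_add]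
    field_simp
  rw [h6, Real.logb_div (by positivity) (by positivity), Real.logb_mul (by positivity) (by norm_num),
    Real.logb_self_eq_one (by norm_num), Real.logb_pow, Real.logb_self_eq_one (by norm_num), mul_one]
  -- the exponent
  have h7 : (N : ℝ) ^ 2 / 4 + 2 * N ≤ ((N + (N / 2 + 2) * (N - N / 2) : ℕ) : ℝ) := by
    have h8 : N ^ 2 + 8 * N ≤ 4 * (N + (N / 2 + 2) * (N - N / 2)) := by
      rcases Nat.even_or_odd' N with ⟨m, hm | hm⟩
      · have e1 : N / 2 = m := by omega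
        have e2 : N - N / 2 = m := by omega
        rw [e2, e1, hm]
        ring_nf
        omega
      · have e1 : N / 2 = m := by omega
        have e2 : N - N / 2 = m + 1 := by omega
        rw [e2, e1, hm]
        ring_nf
        omega
    have h9 : (N : ℝ) ^ 2 + 8 * N ≤ 4 * ((N + (N / 2 + 2) * (N - N / 2) : ℕ) : ℝ) := by
      exact_mod_cast h8
    linarith
  have h8 : Real.logb 2 ((N : ℝ) + 1) ≤ 3 * Real.log n := by
    have h9 : Real.logb 2 ((N : ℝ) + 1) ≤ Real.logb 2 ((n : ℝ) + 1) := by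
      apply Real.logb_le_logb_of_le (by norm_num) (by positivity)
      have : (N : ℝ) ≤ n := by exact_mod_cast (show N ≤ n by omega)
      linarith
    exact h9.trans (log_succ_le (by omega))
  have hkR : (k : ℝ) = K + 3 := by exact_mod_cast hK
  have hnR : (n : ℝ) = N + K := by exact_mod_cast hN
  have h9 : (n : ℝ) ^ 2 / 4 + (1 - ((k : ℝ) - 5) / 2) * n ≤ (N : ℝ) ^ 2 / 4 + 2 * N + 2 * k := by
    rw [hnR, hkR]
    have : (0 : ℝ) ≤ K := by positivity
    nlinarith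
  linarith

theorem main (k : ℕ) (hk : 5 ≤ k) :
    (fun n : ℕ => Real.logb 2 (a k n) - ((n : ℝ) ^ 2 / 4 + (1 - ((k : ℝ) - 5) / 2) * n))
      =O[Filter.atTop] (fun n : ℕ => Real.log n) := by
  obtain ⟨C, hC0, hC⟩ := upper k (by omega)
  rw [Asymptotics.isBigO_iff]
  refine ⟨C + 3 + 2 * (2 * k + 1), ?_⟩
  filter_upwards [lower k hk, Filter.eventually_gt_atTop (72 * k ^ 3),
    Filter.eventually_ge_atTop 2] with n h1 h2 h3
  have h4 := hC n h2 h1.1
  have h5 := h1.2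
  have h6 : Real.log 2 ≤ Real.log n :=
    Real.log_le_log (by norm_num) (by exact_mod_cast h3)
  have h7 := Real.log_two_gt_d9
  have h8 : 0 ≤ Real.log n := by linarith
  rw [Real.norm_eq_abs, Real.norm_of_nonneg h8, abs_le]
  have hk0 : (0 : ℝ) ≤ 2 * k + 1 := by positivity
  have h9 : (2 * k + 1 : ℝ) ≤ 2 * (2 * k + 1) * Real.log n := by nlinarith
  constructor
  · nlinarith
  · nlinarith

end Pool.Agent.Helper55.Graded
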