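import Pool.Agent.Helper55.GradedNum

/-!
# The main inequality for the number of pairs
-/

set_option autoImplicit false

namespace Pool.Agent.Helper55.Graded

open Finset

lemma algebra_aux (e a b c d l r X' Y' lam rho p q K : ℤ) (hK : e ≤ a * b + b * c + c * d + l * a + r * d + K)
    (hp : p = a + c + (r + X')) (hq : q = b + d + (l + Y')) (ha : 0 ≤ a) (hb : 0 ≤ b) (hc : 0 ≤ c)
    (hd : 0 ≤ d) (hl : lam ≤ l) (hr : rho ≤ r) (hlam0 : 0 ≤ lam) (hlam : lam ≤ 1) (hrho0 : 0 ≤ rho)
    (hrho : rho ≤ 1) (hX : 0 ≤ X') (hY : 0 ≤ Y') :
    e + (lam + Y') * p + (rho + X') * q + (a - 1) * (d - 1) ≤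
      p * q + (1 + (r + X') + (l + Y') + 2 * ((r + X') * (l + Y')) + K) := by
  have h1 : p * q + (1 + (r + X') + (l + Y') + 2 * ((r + X') * (l + Y'))) -
      (a * b + b * c + c * d + l * a + r * d) - (lam + Y') * p - (rho + X') * q - (a - 1) * (d - 1) =
      (1 - lam) * (a + (r + X')) + (1 - rho) * (d + (l + Y')) + c * (l - lam) + b * (r - rho) +
        (r + X') * (l + Y') + l * (r + X') + r * (l + Y') := by
    rw [hp, hq]
    ring
  have hl0 : 0 ≤ l := by linarith
  have hr0 : 0 ≤ r := by linarith
  have h2 : 0 ≤ (1 - lam) * (a + (r + X')) := mul_nonneg (by linarith) (by linarith)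
  have h3 : 0 ≤ (1 - rho) * (d + (l + Y')) := mul_nonneg (by linarith) (by linarith)
  have h4 : 0 ≤ c * (l - lam) := mul_nonneg hc (by linarith)
  have h5 : 0 ≤ b * (r - rho) := mul_nonneg hb (by linarith)
  have h6 : 0 ≤ (r + X') * (l + Y') := mul_nonneg (by linarith) (by linarith)
  have h7 : 0 ≤ l * (r + X') := mul_nonneg hl0 (by linarith)
  have h8 : 0 ≤ r * (l + Y') := mul_nonneg hr0 (by linarith)
  linarith

lemma algebra_main (k e a b c d l r lam rho p q s n : ℕ)
    (hK : e ≤ a * b + b * c + c * d + l * a + r * d + k * s ^ 2)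
    (hp1 : a + c + r ≤ p) (hp2 : p ≤ a + c + k * s) (hq1 : b + d + l ≤ q) (hq2 : q ≤ b + d + k * s)
    (hn : a + b + c + d + l + r + k ≤ n + 4 + lam + rho) (hl : lam ≤ l) (hlam : lam ≤ 1)
    (hr : rho ≤ r) (hrho : rho ≤ 1) (hpq : p + q = n) (ha : 1 ≤ a) (hd : 1 ≤ d) (hk : 4 ≤ k) :
    ∃ y z : ℕ, y + z = k - 4 ∧ e + y * p + z * q + (a - 1) * (d - 1) ≤
      p * q + (1 + 2 * (k * s) + 2 * (k * s) ^ 2 + k * s ^ 2) := by
  obtain ⟨X', hX'⟩ := Nat.exists_eq_add_of_le hp1
  obtain ⟨Y', hY'⟩ := Nat.exists_eq_add_of_le hq1
  have h0 : k - 4 ≤ (lam + Y') + (rho + X') := by omega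
  refine ⟨min (lam + Y') (k - 4), k - 4 - min (lam + Y') (k - 4), by omega, ?_⟩
  have h1 := algebra_aux e a b c d l r X' Y' lam rho p q (k * s ^ 2) (by exact_mod_cast hK)
    (by rw [hX']; push_cast; ring) (by rw [hY']; push_cast; ring) (by positivity) (by positivity)
    (by positivity) (by positivity) (by exact_mod_cast hl) (by exact_mod_cast hr) (by positivity)
    (by exact_mod_cast hlam) (by positivity) (by exact_mod_cast hrho) (by positivity)
    (by positivity)
  have h2 : (e + (lam + Y') * p + (rho + X') * q + (a - 1) * (d - 1) : ℕ) ≤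
      p * q + (1 + (r + X') + (l + Y') + 2 * ((r + X') * (l + Y')) + k * s ^ 2) := by
    zify [ha, hd]
    exact h1
  have hX : r + X' ≤ k * s := by omega
  have hY : l + Y' ≤ k * s := by omega
  have hXY : (r + X') * (l + Y') ≤ (k * s) ^ 2 := by
    rw [sq]
    exact Nat.mul_le_mul hX hY
  have h3 : min (lam + Y') (k - 4) * p ≤ (lam + Y') * p := Nat.mul_le_mul_right _ (min_le_left _ _)
  have h4 : (k - 4 - min (lam + Y') (k - 4)) * q ≤ (rho + X') * q := by
    apply Nat.mul_le_mul_right
    omega
  omega

section

variable {n k : ℕ}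

theorem main_ineq (g : Fin n → Fin k) (hg : Function.Surjective g) (w s : ℕ) (hw : w + 4 ≤ k)
    (hsmall : ∀ t, t < w ∨ w + 3 < t → (Lv g t).card ≤ s) :
    ∃ y z : ℕ, y + z = k - 4 ∧ (pairs g).card + y * (par g w).card + z * (par g (w + 1)).card +
      ((Lv g w).card - 1) * ((Lv g (w + 3)).card - 1) ≤
      (par g w).card * (par g (w + 1)).card +
        (1 + 2 * (k * s) + 2 * (k * s) ^ 2 + k * s ^ 2) := by
  classical
  set N : ℕ → ℕ := fun i => (Lv g i).card with hN
  have hpos : ∀ i < k, 1 ≤ N i := by
    intro i hi
    obtain ⟨x, hx⟩ := hg ⟨i, hi⟩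
    apply card_pos.mpr
    exact ⟨x, by rw [mem_Lv, hx]⟩
  have hzero : ∀ i, k ≤ i → N i = 0 := by
    intro i hi
    apply card_eq_zero.mpr
    rw [Lv, filter_eq_empty_iff]
    intro x _
    have := (g x).2
    omega
  have hN1 : ∀ i, (Lv g i).card = N i := fun _ => rfl
  have hsm : ∀ t, t < w ∨ w + 3 < t → N t ≤ s := hsmall
  -- the number of pairs
  have hpairs : (pairs g).card = ∑ i ∈ range k, N i * N (i + 1) := card_pairs g
  have hpw : (par g w).card = ∑ i ∈ (range k).filter (fun i => i % 2 = w % 2), N i := card_par g w
  have hqw : (par g (w + 1)).card =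
      ∑ i ∈ (range k).filter (fun i => i % 2 = (w + 1) % 2), N i := card_par g (w + 1)
  have hpq := card_par_add g w
  have hp2 : (par g w).card ≤ N w + N (w + 2) + k * s := by
    rw [hpw]
    calc ∑ i ∈ (range k).filter (fun i => i % 2 = w % 2), N i
        ≤ ∑ i ∈ (range k).filter (fun i => i % 2 = w % 2),
          (((if i = w then N w else 0) + (if i = w + 2 then N (w + 2) else 0)) + s) := by
          apply sum_le_sum
          intro i hi
          rw [mem_filter] at hi
          split_ifs with h1 h2 h2
          · omega
          · subst h1; omega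
          · subst h2; omega
          · have := hsm i (by omega)
            omega
      _ ≤ ∑ i ∈ range k,
          (((if i = w then N w else 0) + (if i = w + 2 then N (w + 2) else 0)) + s) :=
          sum_le_sum_of_subset (filter_subset _ _)
      _ = N w + N (w + 2) + k * s := by
          rw [sum_add_distrib, sum_add_distrib, sum_ite_eq', sum_ite_eq', if_pos, if_pos, sum_const,
            card_range, smul_eq_mul]
          · rw [mem_range]; omega
          · rw [mem_range]; omega
  have hq2 : (par g (w + 1)).card ≤ N (w + 1) + N (w + 3) + k * s := by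
    rw [hqw]
    calc ∑ i ∈ (range k).filter (fun i => i % 2 = (w + 1) % 2), N i
        ≤ ∑ i ∈ (range k).filter (fun i => i % 2 = (w + 1) % 2),
          (((if i = w + 1 then N (w + 1) else 0) + (if i = w + 3 then N (w + 3) else 0)) + s) := by
          apply sum_le_sum
          intro i hi
          rw [mem_filter] at hi
          split_ifs with h1 h2 h2
          · omega
          · subst h1; omega
          · subst h2; omega
          · have := hsm i (by omega)
            omega
      _ ≤ ∑ i ∈ range k,
          (((if i = w + 1 then N (w + 1) else 0) + (if i = w + 3 then N (w + 3) else 0)) + s) :=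
          sum_le_sum_of_subset (filter_subset _ _)
      _ = N (w + 1) + N (w + 3) + k * s := by
          rw [sum_add_distrib, sum_add_distrib, sum_ite_eq', sum_ite_eq', if_pos, if_pos, sum_const,
            card_range, smul_eq_mul]
          · rw [mem_range]; omega
          · rw [mem_range]; omega
  -- the total number of elements
  have htot : ∀ S : Finset ℕ, S ⊆ range k → k + ∑ i ∈ S, (N i - 1) ≤ n := by
    intro S hS
    have h1 : ∑ i ∈ range k, N i = n := by
      have h2 : n = ∑ i ∈ range k, N i := by
        have h3 := card_eq_sum_card_fiberwise (s := (univ : Finset (Fin n)))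
          (f := fun z => (g z : ℕ)) (t := range k) (fun z _ => by
            rw [mem_coe, mem_range]
            exact (g z).2)
        rw [card_univ, Fintype.card_fin] at h3
        exact h3
      exact h2.symm
    have h4 : ∑ i ∈ range k, N i = ∑ i ∈ range k, (1 + (N i - 1)) := by
      apply sum_congr rfl
      intro i hi
      have := hpos i (mem_range.mp hi)
      omega
    rw [← h1, h4, sum_add_distrib, sum_const, card_range, smul_eq_mul, mul_one]
    exact Nat.add_le_add_left (sum_le_sum_of_subset hS) _
  -- the data
  obtain ⟨l, lam, hl⟩ : ∃ l lam : ℕ, (w = 0 ∧ l = 0 ∧ lam = 0) ∨ (1 ≤ w ∧ l = N (w - 1) ∧ lam = 1) := by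
    by_cases h : w = 0
    · exact ⟨0, 0, Or.inl ⟨h, rfl, rfl⟩⟩
    · exact ⟨N (w - 1), 1, Or.inr ⟨by omega, rfl, rfl⟩⟩
  obtain ⟨r, rho, hr⟩ : ∃ r rho : ℕ, (w + 4 = k ∧ r = 0 ∧ rho = 0) ∨
      (w + 4 < k ∧ r = N (w + 4) ∧ rho = 1) := by
    by_cases h : w + 4 = k
    · exact ⟨0, 0, Or.inl ⟨h, rfl, rfl⟩⟩
    · exact ⟨N (w + 4), 1, Or.inr ⟨by omega, rfl, rfl⟩⟩
  have hr' : N (w + 4) = r := by
    rcases hr with ⟨h1, h2, _⟩ | ⟨_, h2, _⟩
    · rw [h2]
      exact hzero _ (by omega)
    · exact h2.symm
  apply algebra_main k (pairs g).card (N w) (N (w + 1)) (N (w + 2)) (N (w + 3)) l r lam rho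
    (par g w).card (par g (w + 1)).card s n
  · rw [hpairs]
    calc ∑ i ∈ range k, N i * N (i + 1)
        ≤ ∑ i ∈ range k, ((((((if i = w then N w * N (w + 1) else 0) +
            (if i = w + 1 then N (w + 1) * N (w + 2) else 0)) +
            (if i = w + 2 then N (w + 2) * N (w + 3) else 0)) +
            (if i = w - 1 then l * N w else 0)) +
            (if i = w + 3 then r * N (w + 3) else 0)) + s ^ 2) := by
          apply sum_le_sum
          intro i _
          by_cases h0 : i = w
          · subst h0
            simp only [if_true]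
            omega
          by_cases h1 : i = w + 1
          · subst h1
            simp only [if_true, if_neg h0, show w + 1 + 1 = w + 2 by ring]
            omega
          by_cases h2 : i = w + 2
          · subst h2
            simp only [if_true, if_neg h0, if_neg h1, show w + 2 + 1 = w + 3 by ring]
            omega
          by_cases h3 : i = w + 3
          · subst h3
            simp only [if_true, if_neg h0, if_neg h1, if_neg h2]
            have : N (w + 3) * N (w + 3 + 1) = r * N (w + 3) := by
              rw [show w + 3 + 1 = w + 4 by ring, hr']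
              ring
            omega
          by_cases h4 : i = w - 1
          · simp only [if_pos h4, if_neg h0, if_neg h1, if_neg h2, if_neg h3]
            rcases hl with ⟨h5, _, _⟩ | ⟨h5, h6, _⟩
            · omega
            · have : N i * N (i + 1) = l * N w := by
                rw [h6, h4, Nat.sub_add_cancel h5]
              omega
          · simp only [if_neg h0, if_neg h1, if_neg h2, if_neg h3, if_neg h4]
            have h5 := hsm i (by omega)
            have h6 := hsm (i + 1) (by omega)
            have h7 := Nat.mul_le_mul h5 h6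
            rw [← sq] at h7
            omega
      _ ≤ N w * N (w + 1) + N (w + 1) * N (w + 2) + N (w + 2) * N (w + 3) + l * N w +
            r * N (w + 3) + k * s ^ 2 := by
          rw [sum_add_distrib, sum_add_distrib, sum_add_distrib, sum_add_distrib, sum_add_distrib,
            sum_const, card_range, smul_eq_mul, sum_ite_eq', sum_ite_eq', sum_ite_eq', sum_ite_eq',
            sum_ite_eq']
          split_ifs <;> omega
  · rw [hpw]
    rcases hr with ⟨h1, h2, _⟩ | ⟨h1, h2, _⟩
    · have h3 : ({w, w + 2} : Finset ℕ) ⊆ (range k).filter (fun i => i % 2 = w % 2) := by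
        intro i hi
        simp only [mem_insert, mem_singleton] at hi
        rw [mem_filter, mem_range]
        omega
      have h4 := sum_le_sum_of_subset (f := N) h3
      rw [sum_insert (by simp), sum_singleton] at h4
      omega
    · have h3 : ({w, w + 2, w + 4} : Finset ℕ) ⊆ (range k).filter (fun i => i % 2 = w % 2) := by
        intro i hi
        simp only [mem_insert, mem_singleton] at hi
        rw [mem_filter, mem_range]
        omega
      have h4 := sum_le_sum_of_subset (f := N) h3
      rw [sum_insert (by simp), sum_insert (by simp), sum_singleton] at h4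
      omega
  · exact hp2
  · rw [hqw]
    rcases hl with ⟨h1, h2, _⟩ | ⟨h1, h2, _⟩
    · have h3 : ({w + 1, w + 3} : Finset ℕ) ⊆ (range k).filter (fun i => i % 2 = (w + 1) % 2) := by
        intro i hi
        simp only [mem_insert, mem_singleton] at hi
        rw [mem_filter, mem_range]
        omega
      have h4 := sum_le_sum_of_subset (f := N) h3
      rw [sum_insert (by simp), sum_singleton] at h4
      omega
    · have h3 : ({w - 1, w + 1, w + 3} : Finset ℕ) ⊆
          (range k).filter (fun i => i % 2 = (w + 1) % 2) := by
        intro i hi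
        simp only [mem_insert, mem_singleton] at hi
        rw [mem_filter, mem_range]
        omega
      have h4 := sum_le_sum_of_subset (f := N) h3
      rw [sum_insert (by simp only [mem_insert, mem_singleton]; omega), sum_insert (by simp),
        sum_singleton] at h4
      omega
  · exact hq2
  · have e0 := hpos w (by omega)
    have e1 := hpos (w + 1) (by omega)
    have e2 := hpos (w + 2) (by omega)
    have e3 := hpos (w + 3) (by omega)
    rcases hl with ⟨h1, h2, h2'⟩ | ⟨h1, h2, h2'⟩ <;> rcases hr with ⟨h3, h4, h4'⟩ | ⟨h3, h4, h4'⟩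
    · have h5 := htot {w, w + 1, w + 2, w + 3} (by
        intro i hi
        simp only [mem_insert, mem_singleton] at hi
        rw [mem_range]
        omega)
      rw [sum_insert (by simp), sum_insert (by simp), sum_insert (by simp), sum_singleton] at h5
      omega
    · have h5 := htot {w, w + 1, w + 2, w + 3, w + 4} (by
        intro i hi
        simp only [mem_insert, mem_singleton] at hi
        rw [mem_range]
        omega)
      rw [sum_insert (by simp), sum_insert (by simp), sum_insert (by simp), sum_insert (by simp),
        sum_singleton] at h5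
      have e4 := hpos (w + 4) (by omega)
      omega
    · have h5 := htot {w - 1, w, w + 1, w + 2, w + 3} (by
        intro i hi
        simp only [mem_insert, mem_singleton] at hi
        rw [mem_range]
        omega)
      rw [sum_insert (by simp only [mem_insert, mem_singleton]; omega), sum_insert (by simp),
        sum_insert (by simp), sum_insert (by simp), sum_singleton] at h5
      have e4 := hpos (w - 1) (by omega)
      omega
    · have h5 := htot {w - 1, w, w + 1, w + 2, w + 3, w + 4} (by
        intro i hi
        simp only [mem_insert, mem_singleton] at hi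
        rw [mem_range]
        omega)
      rw [sum_insert (by simp only [mem_insert, mem_singleton]; omega), sum_insert (by simp),
        sum_insert (by simp), sum_insert (by simp), sum_insert (by simp), sum_singleton] at h5
      have e4 := hpos (w - 1) (by omega)
      have e5 := hpos (w + 4) (by omega)
      omega
  · rcases hl with ⟨_, h2, h3⟩ | ⟨h1, h2, h3⟩
    · omega
    · have := hpos (w - 1) (by omega)
      omega
  · rcases hl with ⟨_, h2, h3⟩ | ⟨h1, h2, h3⟩ <;> omega
  · rcases hr with ⟨_, h2, h3⟩ | ⟨h1, h2, h3⟩
    · omega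
    · have := hpos (w + 4) (by omega)
      omega
  · rcases hr with ⟨_, h2, h3⟩ | ⟨h1, h2, h3⟩ <;> omega
  · exact hpq
  · exact hpos w (by omega)
  · exact hpos (w + 3) (by omega)
  · omega

end

end Pool.Agent.Helper55.Graded
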