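import Pool.Agent.Helper55.GradedDefs

/-!
# Numerical estimates for level functions
-/

set_option autoImplicit false

namespace Pool.Agent.Helper55.Graded

open Finset

section Levels

variable {n k : ℕ}

/-- The level `i`. -/
def Lv (g : Fin n → Fin k) (i : ℕ) : Finset (Fin n) := univ.filter (fun x => (g x : ℕ) = i)

/-- The elements whose level is congruent to `w` modulo `2`. -/
def par (g : Fin n → Fin k) (w : ℕ) : Finset (Fin n) := univ.filter (fun x => (g x : ℕ) % 2 = w % 2)

lemma mem_Lv (g : Fin n → Fin k) (i : ℕ) (x : Fin n) : x ∈ Lv g i ↔ (g x : ℕ) = i := by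
  simp [Lv]

lemma mem_par (g : Fin n → Fin k) (w : ℕ) (x : Fin n) : x ∈ par g w ↔ (g x : ℕ) % 2 = w % 2 := by
  simp [par]

lemma card_pairs (g : Fin n → Fin k) :
    (pairs g).card = ∑ i ∈ range k, (Lv g i).card * (Lv g (i + 1)).card := by
  rw [card_eq_sum_card_fiberwise (f := fun z => (g z.1 : ℕ)) (t := range k)]
  · apply sum_congr rfl
    intro i _
    rw [← card_product]
    congr 1
    ext z
    simp only [pairs, mem_filter, mem_univ, true_and, mem_product, mem_Lv]
    constructor
    · rintro ⟨h1, h2⟩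
      exact ⟨h2, by omega⟩
    · rintro ⟨h1, h2⟩
      exact ⟨by omega, h1⟩
  · intro z _
    simp only [coe_range, Set.mem_Iio]
    exact (g z.1).2

lemma card_par (g : Fin n → Fin k) (w : ℕ) :
    (par g w).card = ∑ i ∈ (range k).filter (fun i => i % 2 = w % 2), (Lv g i).card := by
  rw [card_eq_sum_card_fiberwise (f := fun z => (g z : ℕ))
    (t := (range k).filter (fun i => i % 2 = w % 2))]
  · apply sum_congr rfl
    intro i hi
    rw [mem_filter] at hi
    congr 1
    ext z
    simp only [mem_filter, mem_par, mem_Lv]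
    constructor
    · rintro ⟨_, h2⟩
      exact h2
    · rintro h2
      exact ⟨by rw [h2]; exact hi.2, h2⟩
  · intro z hz
    rw [mem_coe, mem_filter, mem_range]
    have h1 : z ∈ par g w := hz
    rw [mem_par] at h1
    exact ⟨(g z).2, h1⟩

lemma par_compl (g : Fin n → Fin k) (w : ℕ) : (par g w)ᶜ = par g (w + 1) := by
  ext x
  rw [mem_compl, mem_par, mem_par]
  omega

lemma card_par_add (g : Fin n → Fin k) (w : ℕ) : (par g w).card + (par g (w + 1)).card = n := by
  rw [← par_compl, card_add_card_compl, Fintype.card_fin]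

/-- The missing pairs: a level of even and one of odd index that are not consecutive. -/
lemma pairs_add_le (g : Fin n → Fin k) (i j : ℕ) (hi : i % 2 = 0) (hj : j % 2 = 1)
    (h1 : i + 1 ≠ j) (h2 : j + 1 ≠ i) :
    (pairs g).card + (Lv g i).card * (Lv g j).card ≤ (par g 0).card * (par g 1).card := by
  classical
  rw [← card_product, ← card_product]
  let φ : Fin n × Fin n → Fin n × Fin n := fun z => if (g z.1 : ℕ) % 2 = 0 then z else z.swap
  have hinj : Set.InjOn φ (pairs g) := by
    intro z hz z' hz' h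
    have e1 : (g z.2 : ℕ) = g z.1 + 1 := by
      have := mem_coe.mp hz
      simpa [pairs] using this
    have e2 : (g z'.2 : ℕ) = g z'.1 + 1 := by
      have := mem_coe.mp hz'
      simpa [pairs] using this
    simp only [φ] at h
    split_ifs at h with c1 c2 c2
    · exact h
    · have h3 : z.1 = z'.2 := by rw [h]; rfl
      have h4 : z.2 = z'.1 := by rw [h]; rfl
      rw [h3, h4] at e1
      omega
    · have h3 : z'.1 = z.2 := by rw [← h]; rfl
      have h4 : z'.2 = z.1 := by rw [← h]; rfl
      rw [h3, h4] at e2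
      omega
    · exact Prod.swap_injective h
  have hdisj : Disjoint ((pairs g).image φ) (Lv g i ×ˢ Lv g j) := by
    rw [disjoint_left]
    intro z hz hz'
    obtain ⟨u, hu, rfl⟩ := mem_image.mp hz
    have e1 : (g u.2 : ℕ) = g u.1 + 1 := by simpa [pairs] using hu
    rw [mem_product, mem_Lv, mem_Lv] at hz'
    simp only [φ] at hz'
    split_ifs at hz' with c1
    · omega
    · simp only [Prod.fst_swap, Prod.snd_swap] at hz'
      omega
  have hsub : (pairs g).image φ ∪ (Lv g i ×ˢ Lv g j) ⊆ par g 0 ×ˢ par g 1 := by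
    intro z hz
    rw [mem_product, mem_par, mem_par]
    rcases mem_union.mp hz with hz | hz
    · obtain ⟨u, hu, rfl⟩ := mem_image.mp hz
      have e1 : (g u.2 : ℕ) = g u.1 + 1 := by simpa [pairs] using hu
      simp only [φ]
      split_ifs with c1
      · omega
      · simp only [Prod.fst_swap, Prod.snd_swap]
        omega
    · rw [mem_product, mem_Lv, mem_Lv] at hz
      omega
  have h3 := card_le_card hsub
  rwa [card_union_of_disjoint hdisj, card_image_of_injOn hinj] at h3

/-- For a level function with almost the maximal number of pairs all levels outside a window of four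
consecutive levels are small. -/
lemma window (hk : 4 ≤ k) (hn : 72 * k ^ 3 < n) (g : Fin n → Fin k)
    (he : n ^ 2 ≤ 4 * (pairs g).card + 8 * k * n) :
    ∃ w, w + 4 ≤ k ∧ ∀ t, t < w ∨ w + 3 < t → (Lv g t).card ≤ 6 * k ^ 2 := by
  classical
  set p := (par g 0).card with hp
  set q := (par g 1).card with hq
  set e := (pairs g).card with hedef
  have hpq : p + q = n := card_par_add g 0
  have h4pq : 4 * (p * q) ≤ n ^ 2 := by
    rw [← hpq]
    nlinarith [sq_nonneg ((p : ℤ) - q), sq_nonneg (p - q), Nat.le_of_lt_succ (Nat.lt_succ_self 0)]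
  have key : ∀ i j, i % 2 = 0 → j % 2 = 1 → i + 1 ≠ j → j + 1 ≠ i →
      (Lv g i).card * (Lv g j).card ≤ 2 * k * n := by
    intro i j hi hj h1 h2
    have := pairs_add_le g i j hi hj h1 h2
    nlinarith
  have hk3 : 64 ≤ k ^ 3 := by
    calc 64 = 4 ^ 3 := by norm_num
      _ ≤ k ^ 3 := Nat.pow_le_pow_left hk 3
  have hkk : k ≤ k ^ 3 := by nlinarith [Nat.pow_le_pow_left hk 2]
  have he' : e ≤ p * q := by
    have h := pairs_add_le g (k + k) (k + k + 3) (by omega) (by omega) (by omega) (by omega)
    exact (Nat.le_add_right _ _).trans h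
  have hp3 : n ≤ 3 * p := by
    by_contra hcon
    push Not at hcon
    have h1 : n ^ 2 ≤ 4 * (p * q) + 8 * k * n := by nlinarith
    have h2 : q = n - p := by omega
    zify at *
    have h3 : (q : ℤ) = n - p := by omega
    rw [h3] at h1
    nlinarith [mul_pos (show (0 : ℤ) < n - 3 * p by linarith) (show (0 : ℤ) < 2 * n - 3 * p by linarith)]
  have hq3 : n ≤ 3 * q := by
    by_contra hcon
    push Not at hcon
    have h1 : n ^ 2 ≤ 4 * (p * q) + 8 * k * n := by nlinarith
    zify at *
    have h3 : (p : ℤ) = n - q := by omega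
    rw [h3] at h1
    nlinarith [mul_pos (show (0 : ℤ) < n - 3 * q by linarith) (show (0 : ℤ) < 2 * n - 3 * q by linarith)]
  -- large levels
  have big : ∀ ε : ℕ, n ≤ 3 * (par g ε).card →
      ∃ i < k, i % 2 = ε % 2 ∧ n ≤ 3 * k * (Lv g i).card := by
    intro ε hε
    have hne : ((range k).filter (fun i => i % 2 = ε % 2)).Nonempty := by
      refine ⟨ε % 2, ?_⟩
      rw [mem_filter, mem_range]
      omega
    obtain ⟨i, hi, hmax⟩ := exists_max_image _ (fun i => (Lv g i).card) hne
    rw [mem_filter, mem_range] at hi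
    refine ⟨i, hi.1, hi.2, ?_⟩
    have h1 := sum_le_card_nsmul _ _ _ hmax
    rw [← card_par, smul_eq_mul] at h1
    have h2 : ((range k).filter (fun i => i % 2 = ε % 2)).card ≤ k := by
      calc _ ≤ (range k).card := card_filter_le _ _
        _ = k := card_range k
    calc n ≤ 3 * (par g ε).card := hε
      _ ≤ 3 * (k * (Lv g i).card) := by
        apply Nat.mul_le_mul_left
        exact h1.trans (Nat.mul_le_mul_right _ h2)
      _ = 3 * k * (Lv g i).card := by ring
  obtain ⟨i0, hi0k, hi0, hi0n⟩ := big 0 hp3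
  obtain ⟨j0, hj0k, hj0, hj0n⟩ := big 1 hq3
  have hnpos : 0 < n := by omega
  have small : ∀ s t, n ≤ 3 * k * (Lv g s).card →
      (Lv g s).card * (Lv g t).card ≤ 2 * k * n → (Lv g t).card ≤ 6 * k ^ 2 := by
    intro s t h1 h2
    have h3 : n * (Lv g t).card ≤ n * (6 * k ^ 2) := by
      calc n * (Lv g t).card ≤ (3 * k * (Lv g s).card) * (Lv g t).card :=
            Nat.mul_le_mul_right _ h1
        _ = 3 * k * ((Lv g s).card * (Lv g t).card) := by ring
        _ ≤ 3 * k * (2 * k * n) := Nat.mul_le_mul_left _ h2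
        _ = n * (6 * k ^ 2) := by ring
    exact Nat.le_of_mul_le_mul_left h3 hnpos
  have hadj : i0 + 1 = j0 ∨ j0 + 1 = i0 := by
    by_contra hcon
    push Not at hcon
    have h1 := small i0 j0 hi0n (key i0 j0 hi0 hj0 hcon.1 hcon.2)
    have h2 : n ≤ 18 * k ^ 3 := by
      calc n ≤ 3 * k * (Lv g j0).card := hj0n
        _ ≤ 3 * k * (6 * k ^ 2) := Nat.mul_le_mul_left _ h1
        _ = 18 * k ^ 3 := by ring
    omega
  refine ⟨min (min i0 j0 - 1) (k - 4), by omega, ?_⟩
  intro t ht
  by_cases htk : k ≤ t
  · have h1 : Lv g t = ∅ := by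
      rw [Lv, filter_eq_empty_iff]
      intro x _
      have := (g x).2
      omega
    rw [h1]
    simp
  · rcases Nat.mod_two_eq_zero_or_one t with h | h
    · apply small j0 t hj0n
      rw [mul_comm]
      apply key t j0 h hj0 <;> omega
    · apply small i0 t hi0n
      apply key i0 t hi0 h <;> omega

end Levels

end Pool.Agent.Helper55.Graded
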