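import Pool.Agent.Helper55.GradedMain

/-!
# The sum over all level functions
-/

set_option autoImplicit false

namespace Pool.Agent.Helper55.Graded

open Finset

lemma sum_pow_le (n s : ℕ) : ∑ i ∈ range (s + 1), n ^ i ≤ (n + 1) ^ s := by
  induction s with
  | zero => simp
  | succ s ih =>
    rw [sum_range_succ, pow_succ (n + 1) s]
    have h1 : n ^ (s + 1) ≤ (n + 1) ^ s * n := by
      rw [pow_succ]
      exact Nat.mul_le_mul_right _ (Nat.pow_le_pow_left (Nat.le_succ n) s)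
    calc _ ≤ (n + 1) ^ s + (n + 1) ^ s * n := add_le_add ih h1
      _ = _ := by ring

/-- The small subsets. -/
def smallSets (n s : ℕ) : Finset (Finset (Fin n)) := univ.filter (fun A => A.card ≤ s)

lemma card_smallSets (n s : ℕ) : (smallSets n s).card ≤ (n + 1) ^ s := by
  classical
  refine le_trans ?_ (sum_pow_le n s)
  rw [card_eq_sum_card_fiberwise (f := fun A : Finset (Fin n) => A.card) (t := range (s + 1))]
  · apply sum_le_sum
    intro i _
    calc ((smallSets n s).filter (fun A => A.card = i)).card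
        ≤ (powersetCard i (univ : Finset (Fin n))).card := by
          apply card_le_card
          intro A hA
          rw [mem_filter] at hA
          rw [mem_powersetCard]
          exact ⟨subset_univ _, hA.2⟩
      _ = n.choose i := by rw [card_powersetCard, card_univ, Fintype.card_fin]
      _ ≤ n ^ i := Nat.choose_le_pow n i
  · intro A hA
    have h1 : A ∈ smallSets n s := hA
    rw [smallSets, mem_filter] at h1
    rw [mem_coe, mem_range]
    have := h1.2
    show A.card < s + 1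
    omega

lemma pointwise (a d : ℕ) : (1 / 2 : ℝ) ^ ((a - 1) * (d - 1)) ≤
    ((if a ≤ 2 then 1 else 0) + (if d ≤ 2 then 1 else 0)) + 256 * ((1 / 4) ^ a * (1 / 4) ^ d) := by
  have h0 : (1 / 2 : ℝ) ^ ((a - 1) * (d - 1)) ≤ 1 := pow_le_one₀ (by norm_num) (by norm_num)
  have h1 : (0 : ℝ) ≤ 256 * ((1 / 4) ^ a * (1 / 4) ^ d) := by positivity
  split_ifs with ha hd hd
  · linarith
  · linarith
  · linarith
  · have h2 : 2 * a + 2 * d ≤ (a - 1) * (d - 1) + 8 := by
      obtain ⟨a', rfl⟩ : ∃ a', a = a' + 3 := ⟨a - 3, by omega⟩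
      obtain ⟨d', rfl⟩ : ∃ d', d = d' + 3 := ⟨d - 3, by omega⟩
      simp only [Nat.add_succ_sub_one]
      nlinarith
    have h3 : (1 / 2 : ℝ) ^ ((a - 1) * (d - 1) + 8) ≤ (1 / 2) ^ (2 * a + 2 * d) :=
      pow_le_pow_of_le_one (by norm_num) (by norm_num) h2
    have h4 : (1 / 2 : ℝ) ^ (2 * a + 2 * d) = (1 / 4) ^ a * (1 / 4) ^ d := by
      rw [pow_add, pow_mul, pow_mul]
      norm_num
    have h5 : (1 / 2 : ℝ) ^ ((a - 1) * (d - 1) + 8) =
        (1 / 2) ^ ((a - 1) * (d - 1)) * (1 / 256) := by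
      rw [pow_add]
      norm_num
    rw [h4, h5] at h3
    linarith

lemma sum_quarter {n : ℕ} (α : Finset (Fin n)) :
    ∑ A ∈ α.powerset, (1 / 4 : ℝ) ^ A.card = (5 / 4) ^ α.card := by
  have h := Finset.sum_pow_mul_eq_add_pow (1 / 4 : ℝ) 1 α
  simp only [one_pow, mul_one] at h
  rw [h]
  norm_num

lemma sum_ind {n : ℕ} (α : Finset (Fin n)) :
    ∑ A ∈ α.powerset, (if A.card ≤ 2 then (1 : ℝ) else 0) ≤ (n + 1) ^ 2 := by
  classical
  rw [← sum_filter, sum_const, nsmul_eq_mul, mul_one]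
  have h1 : (α.powerset.filter (fun A => A.card ≤ 2)).card ≤ (n + 1) ^ 2 := by
    refine le_trans (card_le_card ?_) (card_smallSets n 2)
    intro A hA
    rw [mem_filter] at hA
    rw [smallSets, mem_filter]
    exact ⟨mem_univ _, hA.2⟩
  exact_mod_cast h1

lemma sum_sets {n : ℕ} (α : Finset (Fin n)) :
    ∑ A ∈ α.powerset, ∑ D ∈ αᶜ.powerset, (1 / 2 : ℝ) ^ ((A.card - 1) * (D.card - 1)) ≤
      ((n : ℝ) + 1) ^ 2 * (2 ^ α.card + 2 ^ αᶜ.card) + 256 * (5 / 4) ^ n := by
  classical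
  calc ∑ A ∈ α.powerset, ∑ D ∈ αᶜ.powerset, (1 / 2 : ℝ) ^ ((A.card - 1) * (D.card - 1))
      ≤ ∑ A ∈ α.powerset, ∑ D ∈ αᶜ.powerset,
        (((if A.card ≤ 2 then (1 : ℝ) else 0) + (if D.card ≤ 2 then 1 else 0)) +
          256 * ((1 / 4) ^ A.card * (1 / 4) ^ D.card)) :=
        sum_le_sum (fun A _ => sum_le_sum (fun D _ => pointwise _ _))
    _ = (∑ A ∈ α.powerset, (if A.card ≤ 2 then (1 : ℝ) else 0)) * 2 ^ αᶜ.card +
        2 ^ α.card * (∑ D ∈ αᶜ.powerset, (if D.card ≤ 2 then (1 : ℝ) else 0)) +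
        256 * ((∑ A ∈ α.powerset, (1 / 4 : ℝ) ^ A.card) *
          ∑ D ∈ αᶜ.powerset, (1 / 4 : ℝ) ^ D.card) := by
        simp only [sum_add_distrib, sum_const, card_powerset, nsmul_eq_mul, ← mul_sum, ← sum_mul]
        push_cast
        ring
    _ ≤ ((n : ℝ) + 1) ^ 2 * 2 ^ αᶜ.card + 2 ^ α.card * ((n : ℝ) + 1) ^ 2 +
        256 * (5 / 4) ^ n := by
        rw [sum_quarter, sum_quarter, ← pow_add, card_add_card_compl, Fintype.card_fin]
        gcongr
        · exact sum_ind α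
        · exact sum_ind αᶜ
    _ = _ := by ring

/-- The exponent that dominates. -/
noncomputable def M (n k : ℕ) : ℝ := ((n : ℝ) - k + 5) ^ 2 / 4 + k

lemma expo_p (n k p q y z : ℕ) (hpq : p + q = n) (hyz : y + z + 4 = k) :
    (p : ℝ) * q - y * p - z * q + p ≤ M n k := by
  have h1 : (n : ℝ) = p + q := by exact_mod_cast hpq.symm
  have h2 : (k : ℝ) = y + z + 4 := by exact_mod_cast hyz.symm
  have hy : (0 : ℝ) ≤ y := by positivity
  have hz : (0 : ℝ) ≤ z := by positivity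
  rw [M, h1, h2]
  nlinarith [sq_nonneg (((p : ℝ) - z) - (q - y + 1)), mul_nonneg hy hz]

lemma expo_q (n k p q y z : ℕ) (hpq : p + q = n) (hyz : y + z + 4 = k) :
    (p : ℝ) * q - y * p - z * q + q ≤ M n k := by
  have h1 : (n : ℝ) = p + q := by exact_mod_cast hpq.symm
  have h2 : (k : ℝ) = y + z + 4 := by exact_mod_cast hyz.symm
  have hy : (0 : ℝ) ≤ y := by positivity
  have hz : (0 : ℝ) ≤ z := by positivity
  rw [M, h1, h2]
  nlinarith [sq_nonneg (((p : ℝ) - z + 1) - (q - y)), mul_nonneg hy hz]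

lemma expo_n (n k p q y z : ℕ) (hpq : p + q = n) (hyz : y + z + 4 = k) :
    (p : ℝ) * q - y * p - z * q + n / 2 ≤ M n k := by
  have h1 : (n : ℝ) = p + q := by exact_mod_cast hpq.symm
  have h2 : (k : ℝ) = y + z + 4 := by exact_mod_cast hyz.symm
  have hy : (0 : ℝ) ≤ y := by positivity
  have hz : (0 : ℝ) ≤ z := by positivity
  rw [M, h1, h2]
  nlinarith [sq_nonneg (((p : ℝ) - z) - (q - y)), mul_nonneg hy hz]

lemma five_quarter (n : ℕ) : (5 / 4 : ℝ) ^ n ≤ 2 ^ ((n : ℝ) / 2) := by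
  have h1 : (5 / 4 : ℝ) ≤ 2 ^ (1 / 2 : ℝ) := by
    rw [← Real.sqrt_eq_rpow]
    apply Real.le_sqrt_of_sq_le
    norm_num
  calc (5 / 4 : ℝ) ^ n ≤ (2 ^ (1 / 2 : ℝ)) ^ n := pow_le_pow_left₀ (by norm_num) h1 n
    _ = 2 ^ ((n : ℝ) / 2) := by
      rw [← Real.rpow_natCast, ← Real.rpow_mul (by norm_num)]
      congr 1
      ring

lemma sum_block {n : ℕ} (k y z : ℕ) (hyz : y + z + 4 = k) (α : Finset (Fin n)) (C : ℝ) :
    ∑ A ∈ α.powerset, ∑ D ∈ αᶜ.powerset,
      (2 : ℝ) ^ ((α.card : ℝ) * αᶜ.card - y * α.card - z * αᶜ.card + C) *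
        (1 / 2 : ℝ) ^ ((A.card - 1) * (D.card - 1)) ≤
      258 * ((n : ℝ) + 1) ^ 2 * 2 ^ (M n k + C) := by
  have hpq : α.card + αᶜ.card = n := by rw [card_add_card_compl, Fintype.card_fin]
  set p := α.card with hp
  set q := αᶜ.card with hq
  set E : ℝ := (p : ℝ) * q - y * p - z * q with hE
  simp only [← mul_sum]
  have h0 : (0 : ℝ) < 2 ^ (E + C) := by positivity
  have h1 := mul_le_mul_of_nonneg_left (sum_sets α) h0.le
  refine h1.trans ?_
  have hn1 : (1 : ℝ) ≤ ((n : ℝ) + 1) ^ 2 := by nlinarith [show (0 : ℝ) ≤ n by positivity]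
  have e1 : (2 : ℝ) ^ (E + C) * 2 ^ p ≤ 2 ^ (M n k + C) := by
    rw [← Real.rpow_natCast 2 p, ← Real.rpow_add (by norm_num)]
    apply Real.rpow_le_rpow_of_exponent_le (by norm_num)
    have := expo_p n k p q y z hpq hyz
    linarith
  have e2 : (2 : ℝ) ^ (E + C) * 2 ^ q ≤ 2 ^ (M n k + C) := by
    rw [← Real.rpow_natCast 2 q, ← Real.rpow_add (by norm_num)]
    apply Real.rpow_le_rpow_of_exponent_le (by norm_num)
    have := expo_q n k p q y z hpq hyz
    linarith
  have e3 : (2 : ℝ) ^ (E + C) * (5 / 4) ^ n ≤ 2 ^ (M n k + C) := by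
    calc (2 : ℝ) ^ (E + C) * (5 / 4) ^ n ≤ 2 ^ (E + C) * 2 ^ ((n : ℝ) / 2) :=
          mul_le_mul_of_nonneg_left (five_quarter n) h0.le
      _ = 2 ^ (E + C + n / 2) := by rw [← Real.rpow_add (by norm_num)]
      _ ≤ _ := by
        apply Real.rpow_le_rpow_of_exponent_le (by norm_num)
        have := expo_n n k p q y z hpq hyz
        linarith
  have h2 : (0 : ℝ) < 2 ^ (M n k + C) := by positivity
  calc (2 : ℝ) ^ (E + C) * (((n : ℝ) + 1) ^ 2 * (2 ^ p + 2 ^ q) + 256 * (5 / 4) ^ n)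
      = ((n : ℝ) + 1) ^ 2 * (2 ^ (E + C) * 2 ^ p + 2 ^ (E + C) * 2 ^ q) +
        256 * (2 ^ (E + C) * (5 / 4) ^ n) := by ring
    _ ≤ ((n : ℝ) + 1) ^ 2 * (2 ^ (M n k + C) + 2 ^ (M n k + C)) + 256 * 2 ^ (M n k + C) := by
        gcongr
    _ ≤ 258 * ((n : ℝ) + 1) ^ 2 * 2 ^ (M n k + C) := by nlinarith

section Codes

variable {n k : ℕ}

/-- The level functions with small levels outside of the window at `w`. -/
noncomputable def Gw (n k w s : ℕ) : Finset (Fin n → Fin k) := by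
  classical exact (surj n k).filter (fun g => ∀ t, t < w ∨ w + 3 < t → (Lv g t).card ≤ s)

lemma mem_Gw (n k w s : ℕ) (g : Fin n → Fin k) : g ∈ Gw n k w s ↔
    Function.Surjective g ∧ ∀ t, t < w ∨ w + 3 < t → (Lv g t).card ≤ s := by
  simp [Gw, surj]

/-- The levels outside of the window. -/
def outf (w : ℕ) (g : Fin n → Fin k) : Fin k → Finset (Fin n) :=
  fun i => if (i : ℕ) < w ∨ w + 3 < (i : ℕ) then Lv g i else ∅

/-- The code of a level function. -/
def code (w : ℕ) (g : Fin n → Fin k) :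
    (Fin k → Finset (Fin n)) × (_ : Finset (Fin n)) × Finset (Fin n) × Finset (Fin n) :=
  (outf w g, ⟨par g w, (Lv g w, Lv g (w + 3))⟩)

lemma code_inj (w : ℕ) : Function.Injective (code (n := n) (k := k) w) := by
  intro g g' h
  have h1 : outf w g = outf w g' := congrArg Prod.fst h
  have h2 : (⟨par g w, (Lv g w, Lv g (w + 3))⟩ :
      (_ : Finset (Fin n)) × Finset (Fin n) × Finset (Fin n)) =
      ⟨par g' w, (Lv g' w, Lv g' (w + 3))⟩ := congrArg Prod.snd h
  rw [Sigma.mk.injEq, heq_eq_eq, Prod.mk.injEq] at h2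
  obtain ⟨h3, h4, h5⟩ := h2
  have k1 : ∀ x, ((g x : ℕ) % 2 = w % 2 ↔ (g' x : ℕ) % 2 = w % 2) := by
    intro x
    rw [← mem_par, ← mem_par, h3]
  have k2 : ∀ x, ((g x : ℕ) = w ↔ (g' x : ℕ) = w) := by
    intro x
    rw [← mem_Lv, ← mem_Lv, h4]
  have k3 : ∀ x, ((g x : ℕ) = w + 3 ↔ (g' x : ℕ) = w + 3) := by
    intro x
    rw [← mem_Lv, ← mem_Lv, h5]
  have k4 : ∀ (i : Fin k), ((i : ℕ) < w ∨ w + 3 < (i : ℕ)) → ∀ x,
      ((g x : ℕ) = i ↔ (g' x : ℕ) = i) := by
    intro i hi x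
    have h6 := congrFun h1 i
    simp only [outf, if_pos hi] at h6
    rw [← mem_Lv, ← mem_Lv, h6]
  funext x
  apply Fin.ext
  by_cases c1 : (g x : ℕ) < w ∨ w + 3 < (g x : ℕ)
  · exact ((k4 (g x) c1 x).mp rfl).symm
  by_cases c2 : (g' x : ℕ) < w ∨ w + 3 < (g' x : ℕ)
  · exact (k4 (g' x) c2 x).mpr rfl
  have := k1 x
  have := k2 x
  have := k3 x
  omega

/-- The bound for the contributions. -/
noncomputable def wt (k : ℕ) (C : ℝ) (c : (_ : Finset (Fin n)) × Finset (Fin n) × Finset (Fin n)) :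
    ℝ :=
  ∑ y ∈ range (k - 3), (2 : ℝ) ^ ((c.1.card : ℝ) * c.1ᶜ.card - y * c.1.card -
    (k - 4 - y : ℕ) * c.1ᶜ.card + C) * (1 / 2 : ℝ) ^ ((c.2.1.card - 1) * (c.2.2.card - 1))

lemma wt_nonneg (k : ℕ) (C : ℝ) (c : (_ : Finset (Fin n)) × Finset (Fin n) × Finset (Fin n)) :
    0 ≤ wt k C c := by
  unfold wt
  positivity

/-- The error constant. -/
def err (k s : ℕ) : ℕ := 1 + 2 * (k * s) + 2 * (k * s) ^ 2 + k * s ^ 2

lemma two_pow_le (w s : ℕ) (hw : w + 4 ≤ k) (g : Fin n → Fin k) (hg : g ∈ Gw n k w s) :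
    (2 : ℝ) ^ (pairs g).card ≤ wt k (err k s) (code w g).2 := by
  rw [mem_Gw] at hg
  obtain ⟨y, z, hyz, h⟩ := main_ineq g hg.1 w s hw hg.2
  have hmem : y ∈ range (k - 3) := by
    rw [mem_range]
    omega
  refine le_trans ?_ (single_le_sum (f := fun y : ℕ =>
    (2 : ℝ) ^ (((par g w).card : ℝ) * (par g w)ᶜ.card - y * (par g w).card -
      (k - 4 - y : ℕ) * (par g w)ᶜ.card + (err k s : ℕ)) *
      (1 / 2 : ℝ) ^ (((Lv g w).card - 1) * ((Lv g (w + 3)).card - 1)))
    (fun y _ => by positivity) hmem)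
  have hz : k - 4 - y = z := by omega
  simp only [hz, par_compl]
  have h2 : ((pairs g).card + y * (par g w).card + z * (par g (w + 1)).card +
      ((Lv g w).card - 1) * ((Lv g (w + 3)).card - 1) : ℕ) ≤
      ((par g w).card * (par g (w + 1)).card + err k s : ℕ) := h
  have h3 : ((pairs g).card : ℝ) + y * (par g w).card + z * (par g (w + 1)).card +
      (((Lv g w).card - 1) * ((Lv g (w + 3)).card - 1) : ℕ) ≤
      ((par g w).card : ℝ) * (par g (w + 1)).card + err k s := by exact_mod_cast h2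
  have h4 : (1 / 2 : ℝ) ^ (((Lv g w).card - 1) * ((Lv g (w + 3)).card - 1)) =
      2 ^ (-((((Lv g w).card - 1) * ((Lv g (w + 3)).card - 1) : ℕ) : ℝ)) := by
    rw [Real.rpow_neg (by norm_num), Real.rpow_natCast, one_div, inv_pow]
  rw [h4, ← Real.rpow_add (by norm_num), ← Real.rpow_natCast]
  apply Real.rpow_le_rpow_of_exponent_le (by norm_num)
  linarith

lemma sum_Gw (w s : ℕ) (hw : w + 4 ≤ k) :
    ∑ g ∈ Gw n k w s, (2 : ℝ) ^ (pairs g).card ≤
      (((n : ℝ) + 1) ^ s) ^ k * (2 ^ n * (k * (258 * ((n : ℝ) + 1) ^ 2 *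
        2 ^ (M n k + err k s)))) := by
  classical
  let T : Finset ((Fin k → Finset (Fin n)) × (_ : Finset (Fin n)) × Finset (Fin n) × Finset (Fin n)) :=
    (Fintype.piFinset (fun _ : Fin k => smallSets n s)) ×ˢ
      ((univ : Finset (Finset (Fin n))).sigma (fun α => α.powerset ×ˢ αᶜ.powerset))
  have hT : ∀ g ∈ Gw n k w s, code w g ∈ T := by
    intro g hg
    rw [mem_Gw] at hg
    rw [mem_product, Fintype.mem_piFinset, mem_sigma, mem_product, mem_powerset, mem_powerset]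
    refine ⟨?_, mem_univ _, ?_, ?_⟩
    · intro i
      rw [smallSets, mem_filter]
      refine ⟨mem_univ _, ?_⟩
      simp only [code, outf]
      split_ifs with h
      · exact hg.2 _ h
      · simp
    · intro x hx
      simp only [code] at hx ⊢
      rw [mem_Lv] at hx
      rw [mem_par]
      omega
    · intro x hx
      simp only [code] at hx ⊢
      rw [mem_Lv] at hx
      rw [mem_compl, mem_par]
      omega
  calc ∑ g ∈ Gw n k w s, (2 : ℝ) ^ (pairs g).card
      ≤ ∑ g ∈ Gw n k w s, wt k (err k s) (code w g).2 :=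
        sum_le_sum (fun g hg => two_pow_le w s hw g hg)
    _ = ∑ c ∈ (Gw n k w s).image (code w), wt k (err k s) c.2 := by
        rw [sum_image (fun g _ g' _ h => code_inj w h)]
    _ ≤ ∑ c ∈ T, wt k (err k s) c.2 := by
        apply sum_le_sum_of_subset_of_nonneg
        · intro c hc
          obtain ⟨g, hg, rfl⟩ := mem_image.mp hc
          exact hT g hg
        · intro c _ _
          exact wt_nonneg _ _ _
    _ = (smallSets n s).card ^ k * ∑ α : Finset (Fin n), ∑ A ∈ α.powerset, ∑ D ∈ αᶜ.powerset,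
          wt k (err k s) ⟨α, (A, D)⟩ := by
        rw [sum_product]
        simp only [sum_const, nsmul_eq_mul, Fintype.card_piFinset, prod_const, card_univ,
          Fintype.card_fin, sum_sigma, sum_product]
        push_cast
        rfl
    _ ≤ (smallSets n s).card ^ k * ∑ _α : Finset (Fin n),
          ∑ _y ∈ range (k - 3), 258 * ((n : ℝ) + 1) ^ 2 * 2 ^ (M n k + err k s) := by
        apply mul_le_mul_of_nonneg_left _ (by positivity)
        apply sum_le_sum
        intro α _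
        have h1 : ∑ A ∈ α.powerset, ∑ D ∈ αᶜ.powerset, wt k (err k s) ⟨α, (A, D)⟩ =
            ∑ y ∈ range (k - 3), ∑ A ∈ α.powerset, ∑ D ∈ αᶜ.powerset,
            (2 : ℝ) ^ ((α.card : ℝ) * αᶜ.card - y * α.card - (k - 4 - y : ℕ) * αᶜ.card +
              (err k s : ℕ)) * (1 / 2 : ℝ) ^ ((A.card - 1) * (D.card - 1)) := by
          simp only [wt]
          rw [sum_comm]
          rw [sum_congr rfl (fun (x : Finset (Fin n)) _ => sum_comm)]
          rw [sum_comm]
          apply sum_congr rfl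
          intro y _
          rw [sum_comm]
        rw [h1]
        apply sum_le_sum
        intro y hy
        rw [mem_range] at hy
        exact sum_block k y (k - 4 - y) (by omega) α _
    _ ≤ _ := by
        rw [sum_const, sum_const, card_univ, Fintype.card_finset, Fintype.card_fin, card_range,
          nsmul_eq_mul, nsmul_eq_mul]
        have h1 : ((smallSets n s).card : ℝ) ≤ ((n : ℝ) + 1) ^ s := by
          exact_mod_cast card_smallSets n s
        have h2 : ((k - 3 : ℕ) : ℝ) ≤ k := by exact_mod_cast Nat.sub_le k 3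
        push_cast
        gcongr

end Codes

end Pool.Agent.Helper55.Graded
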