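import Pool.Agent.Helper55.GradedSum

/-!
# The upper bound
-/

set_option autoImplicit false

namespace Pool.Agent.Helper55.Graded

open Finset

lemma sum_biUnion_le' {α : Type} [DecidableEq α] (t : Finset ℕ) (G : ℕ → Finset α) (f : α → ℝ)
    (hf : ∀ a, 0 ≤ f a) : ∑ a ∈ t.biUnion G, f a ≤ ∑ w ∈ t, ∑ a ∈ G w, f a := by
  induction t using Finset.induction_on with
  | empty => simp
  | insert w t hw ih =>
    rw [biUnion_insert, sum_insert hw]
    have h1 := sum_union_inter (s₁ := G w) (s₂ := t.biUnion G) (f := f)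
    have h2 : 0 ≤ ∑ a ∈ G w ∩ t.biUnion G, f a := sum_nonneg (fun a _ => hf a)
    linarith

variable {n k : ℕ}

lemma sum_bad (hk : 1 ≤ k) :
    ∑ g ∈ (surj n k).filter (fun g => ¬ n ^ 2 ≤ 4 * (pairs g).card + 8 * k * n),
      (2 : ℝ) ^ (pairs g).card ≤ 2 ^ ((n : ℝ) ^ 2 / 4 + (1 - ((k : ℝ) - 5) / 2) * n) := by
  classical
  calc ∑ g ∈ (surj n k).filter (fun g => ¬ n ^ 2 ≤ 4 * (pairs g).card + 8 * k * n),
      (2 : ℝ) ^ (pairs g).card
      ≤ ∑ _g ∈ (surj n k).filter (fun g => ¬ n ^ 2 ≤ 4 * (pairs g).card + 8 * k * n),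
        (2 : ℝ) ^ ((n : ℝ) ^ 2 / 4 - 2 * k * n) := by
        apply sum_le_sum
        intro g hg
        rw [mem_filter] at hg
        have h1 : 4 * (pairs g).card + 8 * k * n ≤ n ^ 2 := by omega
        have h2 : (4 : ℝ) * (pairs g).card + 8 * k * n ≤ (n : ℝ) ^ 2 := by exact_mod_cast h1
        rw [← Real.rpow_natCast]
        apply Real.rpow_le_rpow_of_exponent_le (by norm_num)
        linarith
    _ ≤ (2 : ℝ) ^ ((k : ℝ) * n) * (2 : ℝ) ^ ((n : ℝ) ^ 2 / 4 - 2 * k * n) := by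
        rw [sum_const, nsmul_eq_mul]
        apply mul_le_mul_of_nonneg_right _ (by positivity)
        have h1 : ((surj n k).filter
            (fun g => ¬ n ^ 2 ≤ 4 * (pairs g).card + 8 * k * n)).card ≤ 2 ^ (k * n) := by
          calc _ ≤ (univ : Finset (Fin n → Fin k)).card := card_le_card (subset_univ _)
            _ = k ^ n := by simp
            _ ≤ (2 ^ k) ^ n := Nat.pow_le_pow_left (Nat.lt_two_pow_self).le n
            _ = 2 ^ (k * n) := by rw [pow_mul]
        have h2 : (((surj n k).filter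
            (fun g => ¬ n ^ 2 ≤ 4 * (pairs g).card + 8 * k * n)).card : ℝ) ≤ 2 ^ (k * n) := by
          exact_mod_cast h1
        refine h2.trans (le_of_eq ?_)
        rw [← Real.rpow_natCast]
        push_cast
        rfl
    _ = 2 ^ ((n : ℝ) ^ 2 / 4 - k * n) := by
        rw [← Real.rpow_add (by norm_num)]
        congr 1
        ring
    _ ≤ _ := by
        apply Real.rpow_le_rpow_of_exponent_le (by norm_num)
        have h1 : (1 : ℝ) ≤ k := by exact_mod_cast hk
        have h2 : (0 : ℝ) ≤ n := by positivity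
        nlinarith

/-- The constant factor in the upper bound. -/
noncomputable def cst (k : ℕ) : ℝ :=
  1 + 258 * (k : ℝ) ^ 2 * 2 ^ (((k : ℝ) - 5) ^ 2 / 4 + k + err k (6 * k ^ 2))

lemma sum_all (hk : 4 ≤ k) (hn : 72 * k ^ 3 < n) :
    ((∑ g ∈ surj n k, 2 ^ (pairs g).card : ℕ) : ℝ) ≤
      2 ^ ((n : ℝ) ^ 2 / 4 + (1 - ((k : ℝ) - 5) / 2) * n) *
        (cst k * ((n : ℝ) + 1) ^ (6 * k ^ 2 * k + 2)) := by
  classical
  push_cast
  rw [← sum_filter_add_sum_filter_not (surj n k)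
    (fun g => n ^ 2 ≤ 4 * (pairs g).card + 8 * k * n)]
  have hbad := sum_bad (n := n) (k := k) (by omega)
  set s := 6 * k ^ 2 with hs
  set B : ℝ := (n : ℝ) ^ 2 / 4 + (1 - ((k : ℝ) - 5) / 2) * n with hB
  have hgood : ∑ g ∈ (surj n k).filter (fun g => n ^ 2 ≤ 4 * (pairs g).card + 8 * k * n),
      (2 : ℝ) ^ (pairs g).card ≤
      2 ^ B * (258 * (k : ℝ) ^ 2 * 2 ^ (((k : ℝ) - 5) ^ 2 / 4 + k + err k s) *
        ((n : ℝ) + 1) ^ (s * k + 2)) := by
    calc ∑ g ∈ (surj n k).filter (fun g => n ^ 2 ≤ 4 * (pairs g).card + 8 * k * n),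
        (2 : ℝ) ^ (pairs g).card
        ≤ ∑ g ∈ (range (k - 3)).biUnion (fun w => Gw n k w s), (2 : ℝ) ^ (pairs g).card := by
          apply sum_le_sum_of_subset_of_nonneg
          · intro g hg
            rw [mem_filter] at hg
            have h0 : Function.Surjective g := by simpa [surj] using hg.1
            obtain ⟨w, hw, h1⟩ := window hk hn g hg.2
            rw [mem_biUnion]
            exact ⟨w, mem_range.mpr (by omega), (mem_Gw _ _ _ _ _).mpr ⟨h0, h1⟩⟩
          · intro g _ _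
            positivity
      _ ≤ ∑ w ∈ range (k - 3), ∑ g ∈ Gw n k w s, (2 : ℝ) ^ (pairs g).card :=
          sum_biUnion_le' _ _ _ (fun g => by positivity)
      _ ≤ ∑ _w ∈ range (k - 3), (((n : ℝ) + 1) ^ s) ^ k * (2 ^ n * (k * (258 *
          ((n : ℝ) + 1) ^ 2 * 2 ^ (M n k + err k s)))) := by
          apply sum_le_sum
          intro w hw
          rw [mem_range] at hw
          exact sum_Gw w s (by omega)
      _ ≤ k * ((((n : ℝ) + 1) ^ s) ^ k * (2 ^ n * (k * (258 *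
          ((n : ℝ) + 1) ^ 2 * 2 ^ (M n k + err k s))))) := by
          rw [sum_const, card_range, nsmul_eq_mul]
          have h2 : ((k - 3 : ℕ) : ℝ) ≤ k := by exact_mod_cast Nat.sub_le k 3
          gcongr
      _ = (2 ^ (n : ℝ) * 2 ^ (M n k + err k s)) * (258 * (k : ℝ) ^ 2 *
          ((n : ℝ) + 1) ^ (s * k + 2)) := by
          rw [Real.rpow_natCast, ← pow_mul, pow_add]
          ring
      _ = (2 ^ B * 2 ^ (((k : ℝ) - 5) ^ 2 / 4 + k + err k s)) * (258 * (k : ℝ) ^ 2 *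
          ((n : ℝ) + 1) ^ (s * k + 2)) := by
          rw [← Real.rpow_add (by norm_num), ← Real.rpow_add (by norm_num), M, hB]
          congr 2
          ring
      _ = _ := by ring
  have hone : (1 : ℝ) ≤ ((n : ℝ) + 1) ^ (s * k + 2) := by
    apply one_le_pow₀
    have : (0 : ℝ) ≤ n := by positivity
    linarith
  have hBpos : (0 : ℝ) < 2 ^ B := by positivity
  have hbad' : (2 : ℝ) ^ B ≤ 2 ^ B * ((n : ℝ) + 1) ^ (s * k + 2) := by nlinarith
  calc _ ≤ 2 ^ B * (258 * (k : ℝ) ^ 2 * 2 ^ (((k : ℝ) - 5) ^ 2 / 4 + k + err k s) *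
        ((n : ℝ) + 1) ^ (s * k + 2)) + 2 ^ B * ((n : ℝ) + 1) ^ (s * k + 2) :=
        add_le_add hgood (hbad.trans hbad')
    _ = _ := by
        rw [cst]
        ring

lemma log_succ_le (hn : 2 ≤ n) : Real.logb 2 ((n : ℝ) + 1) ≤ 3 * Real.log n := by
  have h1 : (2 : ℝ) ≤ n := by exact_mod_cast hn
  have h2 : Real.log ((n : ℝ) + 1) ≤ 2 * Real.log n := by
    rw [← Real.log_rpow (by linarith)]
    apply Real.log_le_log (by linarith)
    norm_num
    nlinarith
  have h3 := Real.log_two_gt_d9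
  have h4 : 0 ≤ Real.log n := Real.log_nonneg (by linarith)
  rw [Real.logb, div_le_iff₀ (by linarith)]
  nlinarith

theorem upper (k : ℕ) (hk : 4 ≤ k) : ∃ C : ℝ, 0 ≤ C ∧ ∀ n : ℕ, 72 * k ^ 3 < n → 0 < a k n →
    Real.logb 2 (a k n) ≤
      (n : ℝ) ^ 2 / 4 + (1 - ((k : ℝ) - 5) / 2) * n + C * Real.log n := by
  have hc : 1 ≤ cst k := by
    unfold cst
    have : 0 ≤ 258 * (k : ℝ) ^ 2 * 2 ^ (((k : ℝ) - 5) ^ 2 / 4 + k + err k (6 * k ^ 2)) := by
      positivity
    linarith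
  have hlogc : 0 ≤ Real.logb 2 (cst k) := Real.logb_nonneg (by norm_num) hc
  have hl2 : 0 < Real.log 2 := Real.log_pos (by norm_num)
  refine ⟨Real.logb 2 (cst k) / Real.log 2 + (6 * k ^ 2 * k + 2 : ℕ) * 3, by positivity, ?_⟩
  intro n hn hpos
  have hk3 : 64 ≤ k ^ 3 := by
    calc 64 = 4 ^ 3 := by norm_num
      _ ≤ k ^ 3 := Nat.pow_le_pow_left hk 3
  have hn2 : 2 ≤ n := by omega
  have h1 : (a k n : ℝ) ≤ ((∑ g ∈ surj n k, 2 ^ (pairs g).card : ℕ) : ℝ) := by
    exact_mod_cast a_le k n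
  have h2 := h1.trans (sum_all hk hn)
  have hpos' : (0 : ℝ) < a k n := by exact_mod_cast hpos
  have h3 := Real.logb_le_logb_of_le (b := 2) (by norm_num) hpos' h2
  have hn1 : (0 : ℝ) < (n : ℝ) + 1 := by positivity
  rw [Real.logb_mul (by positivity) (by positivity), Real.logb_mul (by positivity) (by positivity),
    Real.logb_rpow (by norm_num) (by norm_num), Real.logb_pow] at h3
  have h4 := log_succ_le hn2
  have h5 : Real.logb 2 (cst k) ≤ Real.logb 2 (cst k) / Real.log 2 * Real.log n := by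
    rw [div_mul_eq_mul_div, le_div_iff₀ hl2]
    apply mul_le_mul_of_nonneg_left _ hlogc
    exact Real.log_le_log (by norm_num) (by exact_mod_cast hn2)
  have h6 : ((6 * k ^ 2 * k + 2 : ℕ) : ℝ) * Real.logb 2 ((n : ℝ) + 1) ≤
      ((6 * k ^ 2 * k + 2 : ℕ) : ℝ) * (3 * Real.log n) :=
    mul_le_mul_of_nonneg_left h4 (by positivity)
  linarith

end Pool.Agent.Helper55.Graded
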